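import Pool.Agent.P8H56.FL.Inv

/-!
Finiteness of the ample models on finite covers.
-/

set_option autoImplicit false
set_option linter.overlappingInstances false
set_option linter.unusedSectionVars false
set_option maxHeartbeats 1000000

open FF Pool.Agent.W602.GT

namespace Pool.Agent.P8H56.FL

variable {p N n : ℕ}

section lp2

variable {g : Fin n → Fin p → ℤ}

open Classical in
/-- the supports of the representations -/
noncomputable def sg (g : Fin n → Fin p → ℤ) (lam : Fin p → ℚ) : Finset (Finset (Fin n)) :=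
  Finset.univ.filter fun B => ∃ e, Rp g e lam ∧ ∀ b, e b ≠ 0 ↔ b ∈ B

theorem exists_small {e e' : Fin n → ℚ} (he : ∀ b, 0 ≤ e b) (he' : ∀ b, 0 ≤ e' b)
    (hsup : ∀ b, e b = 0 → e' b = 0) : ∃ s : ℚ, 0 < s ∧ ∀ b, s * e' b ≤ e b := by
  classical
  have key : ∀ T : Finset (Fin n), ∃ s : ℚ, 0 < s ∧ ∀ b ∈ T, s * e' b ≤ e b := by
    intro T
    induction T using Finset.induction_on with
    | empty => exact ⟨1, one_pos, fun b hb => by simp at hb⟩
    | insert b T hb ih =>
      obtain ⟨s, hs, h1⟩ := ih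
      by_cases h0 : e b = 0
      · refine ⟨s, hs, fun b' hb' => ?_⟩
        rcases Finset.mem_insert.1 hb' with rfl | hb'
        · rw [hsup _ h0, h0, mul_zero]
        · exact h1 b' hb'
      · have h2 : 0 < e b := lt_of_le_of_ne (he b) (Ne.symm h0)
        have h3 : 0 < e' b + 1 := by linarith [he' b]
        refine ⟨min s (e b / (e' b + 1)), lt_min hs (div_pos h2 h3), fun b' hb' => ?_⟩
        rcases Finset.mem_insert.1 hb' with rfl | hb'
        · calc min s (e b' / (e' b' + 1)) * e' b' ≤ e b' / (e' b' + 1) * e' b' :=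
              mul_le_mul_of_nonneg_right (min_le_right _ _) (he' b')
            _ ≤ e b' / (e' b' + 1) * (e' b' + 1) := by
              refine mul_le_mul_of_nonneg_left (by linarith) (div_pos h2 h3).le
            _ = e b' := by field_simp
        · exact (mul_le_mul_of_nonneg_right (min_le_left _ _) (he' b')).trans (h1 b' hb')
  obtain ⟨s, hs, h1⟩ := key Finset.univ
  exact ⟨s, hs, fun b => h1 b (Finset.mem_univ b)⟩

/-- **The chambers.** -/
theorem chamber {lam lam' : Fin p → ℚ} (hs : sg g lam = sg g lam') :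
    ∃ s : ℚ, 0 < s ∧ ∃ (m : ℕ) (ν : Fin p → ℤ), 1 ≤ m ∧
      (∀ i, (m : ℚ) * (lam i - s * lam' i) = ν i) ∧
      ∀ (o : Fin n → ℚ) (v v' : ℚ), Opt g o lam v → Opt g o lam' v' →
        Opt g o (fun i => lam i - s * lam' i) (v - s * v') ∧
        ∃ e : Fin n → ℕ, (∀ i, ∑ b, (e b : ℤ) * g b i = ν i) ∧
          ∑ b, (e b : ℚ) * o b = m * (v - s * v') := by
  classical
  -- the representations
  have hE : ∀ B : Finset (Fin n), ∃ E E' : Fin n → ℚ, B ∈ sg g lam →
      Rp g E lam ∧ Rp g E' lam' ∧ (∀ b, E b ≠ 0 ↔ b ∈ B) ∧ ∀ b, E' b ≠ 0 ↔ b ∈ B := by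
    intro B
    by_cases hB : B ∈ sg g lam
    · have hB' : B ∈ sg g lam' := by
        rw [← hs]
        exact hB
      obtain ⟨E, h1, h2⟩ := (Finset.mem_filter.1 hB).2
      obtain ⟨E', h1', h2'⟩ := (Finset.mem_filter.1 hB').2
      exact ⟨E, E', fun _ => ⟨h1, h1', h2, h2'⟩⟩
    · exact ⟨0, 0, fun h => absurd h hB⟩
  choose E E' hE using hE
  have hsB : ∀ B : Finset (Fin n), ∃ s : ℚ, 0 < s ∧ (B ∈ sg g lam → ∀ b, s * E' B b ≤ E B b) := by
    intro B
    by_cases hB : B ∈ sg g lam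
    · obtain ⟨h1, h2, h3, h4⟩ := hE B hB
      obtain ⟨s, hs0, hs1⟩ := exists_small h1.1 h2.1 (fun b hb => by
        by_contra h0
        exact (h3 b).2 ((h4 b).1 h0) hb)
      exact ⟨s, hs0, fun _ => hs1⟩
    · exact ⟨1, one_pos, fun h => absurd h hB⟩
  choose sB hsB0 hsB1 using hsB
  obtain ⟨s, hs0, hs1⟩ : ∃ s : ℚ, 0 < s ∧ ∀ B, s ≤ sB B := by
    obtain ⟨B0, -, hB0⟩ := Finset.exists_min_image (Finset.univ : Finset (Finset (Fin n))) sB
      ⟨∅, Finset.mem_univ _⟩
    exact ⟨sB B0, hsB0 B0, fun B => hB0 B (Finset.mem_univ B)⟩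
  have hpos : ∀ B, B ∈ sg g lam → ∀ b, 0 ≤ E B b - s * E' B b := by
    intro B hB b
    have h1 := hsB1 B hB b
    have h2 := mul_le_mul_of_nonneg_right (hs1 B) ((hE B hB).2.1.1 b)
    linarith
  -- the common denominator
  have hden : ∀ B : Finset (Fin n), ∃ M : ℕ, 1 ≤ M ∧ (B ∈ sg g lam →
      ∃ e : Fin n → ℕ, ∀ b, (M : ℚ) * (E B b - s * E' B b) = e b) := by
    intro B
    by_cases hB : B ∈ sg g lam
    · obtain ⟨M, hM, e, he⟩ := exists_den (fun b => E B b - s * E' B b) (hpos B hB)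
      exact ⟨M, hM, fun _ => ⟨e, he⟩⟩
    · exact ⟨1, le_rfl, fun h => absurd h hB⟩
  choose M hM1 hM2 using hden
  obtain ⟨D, hD⟩ : ∃ D : ℕ, D = ∏ i, (lam i - s * lam' i).den := ⟨_, rfl⟩
  have hD1 : D ≠ 0 := by
    rw [hD]
    exact Finset.prod_ne_zero_iff.2 fun i _ => Rat.den_ne_zero _
  obtain ⟨m, hm⟩ : ∃ m : ℕ, m = (∏ B, M B) * D := ⟨_, rfl⟩
  have hm1 : m ≠ 0 := by
    rw [hm]
    exact mul_ne_zero (Finset.prod_ne_zero_iff.2 fun B _ => by have := hM1 B; omega) hD1
  have hν : ∀ i, ∃ ν : ℤ, (m : ℚ) * (lam i - s * lam' i) = ν := by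
    intro i
    have h1 : (lam i - s * lam' i).den ∣ m := by
      rw [hm, hD]
      exact (Finset.dvd_prod_of_mem _ (Finset.mem_univ i)).mul_left _
    obtain ⟨c, hc⟩ := h1
    refine ⟨(c : ℤ) * (lam i - s * lam' i).num, ?_⟩
    rw [hc]
    push_cast
    have h3 : ((lam i - s * lam' i).den : ℚ) * (lam i - s * lam' i) =
        (lam i - s * lam' i).num := by
      rw [mul_comm]
      exact Rat.mul_den_eq_num _
    rw [← h3]
    ring
  choose ν hν using hν
  refine ⟨s, hs0, m, ν, Nat.one_le_iff_ne_zero.2 hm1, hν, fun o v v' ho ho' => ?_⟩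
  obtain ⟨e0, he0, hv0⟩ := ho.2
  obtain ⟨B, hBdef⟩ : ∃ B, B = Finset.univ.filter fun b => e0 b ≠ 0 := ⟨_, rfl⟩
  have hBm : ∀ b, e0 b ≠ 0 ↔ b ∈ B := fun b => by
    rw [hBdef]
    simp
  have hB : B ∈ sg g lam := Finset.mem_filter.2 ⟨Finset.mem_univ B, e0, he0, hBm⟩
  obtain ⟨h1, h2, h3, h4⟩ := hE B hB
  have hz : ∀ b, e0 b = 0 → E B b = 0 ∧ E' B b = 0 := by
    intro b hb
    have hbB : b ∉ B := fun h => (hBm b).2 h hb
    constructor
    · by_contra h0
      exact hbB ((h3 b).1 h0)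
    · by_contra h0
      exact hbB ((h4 b).1 h0)
  have hv : ∑ b, E B b * o b = v := by
    refine le_antisymm ?_ (ho.1 _ h1)
    rw [← hv0]
    exact opt_of_supp ho he0 hv0 h1 (fun b hb => (hz b hb).1) he0
  have hv' : ∑ b, E' B b * o b = v' := by
    obtain ⟨e1, he1, hv1⟩ := ho'.2
    refine le_antisymm ?_ (ho'.1 _ h2)
    rw [← hv1]
    exact opt_of_supp ho he0 hv0 h2 (fun b hb => (hz b hb).2) he1
  have hr : Rp g (fun b => E B b - s * E' B b) (fun i => lam i - s * lam' i) := by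
    refine ⟨hpos B hB, fun i => ?_⟩
    beta_reduce
    rw [← h1.2 i, ← h2.2 i, Finset.mul_sum, ← Finset.sum_sub_distrib]
    exact Finset.sum_congr rfl fun b _ => by ring
  have hval : ∑ b, (E B b - s * E' B b) * o b = v - s * v' := by
    rw [← hv, ← hv', Finset.mul_sum, ← Finset.sum_sub_distrib]
    exact Finset.sum_congr rfl fun b _ => by ring
  refine ⟨⟨fun e he => ?_, _, hr, hval⟩, ?_⟩
  · rw [← hval]
    exact opt_of_supp ho he0 hv0 hr (fun b hb => by
      rw [(hz b hb).1, (hz b hb).2]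
      ring) he
  · obtain ⟨e, he⟩ := hM2 B hB
    obtain ⟨c, hc⟩ : M B ∣ m := by
      rw [hm]
      exact (Finset.dvd_prod_of_mem _ (Finset.mem_univ B)).mul_right _
    have hce : ∀ b, ((c * e b : ℕ) : ℚ) = m * (E B b - s * E' B b) := by
      intro b
      push_cast
      rw [← he b, hc]
      push_cast
      ring
    refine ⟨fun b => c * e b, fun i => ?_, ?_⟩
    · have h5 : ((∑ b, ((c * e b : ℕ) : ℤ) * g b i : ℤ) : ℚ) = (ν i : ℚ) := by
        have h7 : ∑ b, (E B b - s * E' B b) * (g b i : ℚ) = lam i - s * lam' i := hr.2 i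
        rw [← hν i, ← h7, Finset.mul_sum]
        push_cast
        refine Finset.sum_congr rfl fun b _ => ?_
        have h6 := hce b
        push_cast at h6
        rw [h6]
        ring
      exact_mod_cast h5
    · rw [← hval, Finset.mul_sum]
      refine Finset.sum_congr rfl fun b _ => ?_
      rw [hce b]
      ring

end lp2

section cover

variable {L K : Type} [Field L] [Algebra ℂ L] [Field K] [Algebra ℂ K] [Algebra L K]
  [IsScalarTower ℂ L K] [FiniteDimensional L K]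

/-- models depend only on the values at the divisorial places -/
theorem mdl_congr {K : Type} [Field K] [Algebra ℂ K] {δ : Fin p → Place ℂ K → ℚ}
    {κ lam : Fin p → ℚ} {α k α' k' : Place ℂ K → ℚ}
    (ha : ∀ P : Place ℂ K, Divisorial N P → α P = α' P)
    (hk : ∀ P : Place ℂ K, Divisorial N P → k P = k' P) (h : Mdl N δ κ lam α k) :
    Mdl N δ κ lam α' k' := by
  obtain ⟨ε, hε, h⟩ := h
  refine ⟨ε, hε, fun t ht0 ht1 => ?_⟩
  obtain ⟨h1, m, hm, ν, hν, h2⟩ := h t ht0 ht1
  refine ⟨fun m ν hν f => ?_, m, hm, ν, hν, fun P hP => ?_⟩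
  · rw [h1 m ν hν f]
    refine forall_congr' fun P => forall_congr' fun hP => ?_
    rw [ha P hP, hk P hP]
  · rw [← ha P hP, ← hk P hP]
    exact h2 P hP

/-- **Semiample classes from the chambers.** -/
theorem semi {δ : Fin p → Place ℂ L → ℚ} {δ' : Fin p → Place ℂ K → ℚ} (hp : Pull N δ δ')
    {g : Fin n → Fin p → ℤ} {f : Fin n → L} (hgen : Gen N δ g f) {μ : Fin p → ℚ}
    {β : Place ℂ K → ℚ} {m : ℕ} {ν : Fin p → ℤ} (hm : 1 ≤ m) (hν : ∀ i, (m : ℚ) * μ i = ν i)
    (h : ∀ P : Place ℂ K, Divisorial N P →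
      Opt g (fun b => (P.ord (algebraMap L K (f b)) : ℚ)) μ (-(β P)) ∧
      ∃ e : Fin n → ℕ, (∀ i, ∑ b, (e b : ℤ) * g b i = ν i) ∧
        ∑ b, (e b : ℚ) * (P.ord (algebraMap L K (f b)) : ℚ) = m * (-(β P))) :
    Mdl N δ' 0 μ β 0 := by
  classical
  have hF0 : ∀ b, algebraMap L K (f b) ≠ 0 := fun b => (_root_.map_ne_zero _).2 (hgen.1 b).1
  have hprod : ∀ e : Fin n → ℕ, Sec N δ' (fun i => ∑ b, (e b : ℤ) * g b i)
      (∏ b, algebraMap L K (f b) ^ e b) := by
    intro e Q hQ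
    right
    rw [ord_prod Q hF0]
    have h2 : ∀ b, - ∑ i, (g b i : ℚ) * δ' i Q ≤ Q.ord (algebraMap L K (f b)) := fun b =>
      (gen_sec hp (hgen.1 b).2 Q hQ).resolve_left (hF0 b)
    push_cast
    calc - ∑ i, (∑ b, (e b : ℚ) * (g b i : ℚ)) * δ' i Q
        = ∑ b, (e b : ℚ) * (- ∑ i, (g b i : ℚ) * δ' i Q) := by
          simp only [Finset.sum_mul, mul_neg, Finset.mul_sum, Finset.sum_neg_distrib]
          rw [Finset.sum_comm]
          congr 1
          refine Finset.sum_congr rfl fun b _ => Finset.sum_congr rfl fun i _ => by ring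
      _ ≤ _ := Finset.sum_le_sum fun b _ => mul_le_mul_of_nonneg_left (h2 b) (Nat.cast_nonneg _)
  refine ⟨1, one_pos, fun t ht0 ht1 => ?_⟩
  have hμ : ∀ i, μ i + t * (0 : Fin p → ℚ) i = μ i := fun i => by simp
  have hβ : ∀ P : Place ℂ K, β P + t * (0 : Place ℂ K → ℚ) P = β P := fun P => by simp
  simp only [hμ, hβ]
  refine ⟨fun m' ν' hν' s => ⟨fun hs P hP => ?_, fun hs P hP => ?_⟩, m, hm, ν, hν,
    fun P hP => ?_⟩
  · by_cases hs0 : s = 0
    · exact Or.inl hs0
    right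
    rcases Nat.eq_zero_or_pos m' with hm0 | hm0
    · have h1 := (hs P hP).resolve_left hs0
      have h2 : ∀ i, (ν' i : ℚ) = 0 := fun i => by rw [← hν' i, hm0]; simp
      rw [hm0]
      simp only [h2, zero_mul, Finset.sum_const_zero, neg_zero] at h1
      simpa using h1
    · obtain ⟨k, e, hk, he1, he2⟩ := cover_low hp hgen hs hs0 P
      have hm0' : (0 : ℚ) < m' := by exact_mod_cast hm0
      have hk0 : (0 : ℚ) < k := by exact_mod_cast hk
      have hr : Rp g (fun b => (e b : ℚ) / (k * m')) μ := by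
        refine ⟨fun b => by positivity, fun i => ?_⟩
        have h5 : ∑ b, (e b : ℚ) / (k * m') * g b i = (∑ b, (e b : ℚ) * g b i) / (k * m') := by
          rw [Finset.sum_div]
          exact Finset.sum_congr rfl fun b _ => by ring
        have h6 : ∑ b, (e b : ℚ) * g b i = k * ν' i := by
          have h7 := he1 i
          have h8 : ((∑ b, (e b : ℤ) * g b i : ℤ) : ℚ) = ((k * ν' i : ℤ) : ℚ) := by rw [h7]
          push_cast at h8
          exact h8
        rw [h5, h6, ← hν' i]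
        field_simp
      have h1 := (h P hP).1.1 _ hr
      have h5 : ∑ b, (e b : ℚ) / (k * m') * (P.ord (algebraMap L K (f b)) : ℚ) =
          (∑ b, (e b : ℚ) * P.ord (algebraMap L K (f b))) / (k * m') := by
        rw [Finset.sum_div]
        exact Finset.sum_congr rfl fun b _ => by ring
      have h6 : ∑ b, (e b : ℚ) * (P.ord (algebraMap L K (f b)) : ℚ) ≤ k * (P.ord s : ℚ) := by
        exact_mod_cast he2
      rw [h5, le_div_iff₀ (mul_pos hk0 hm0')] at h1
      have h7 : (k : ℚ) * (-(m' * β P)) ≤ k * P.ord s := by linarith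
      exact le_of_mul_le_mul_left h7 hk0
  · by_cases hs0 : s = 0
    · exact Or.inl hs0
    right
    have h1 := (hs P hP).resolve_left hs0
    obtain ⟨e, he, hv⟩ := (h P hP).1.2
    have h2 : ∀ b, - ∑ i, (g b i : ℚ) * δ' i P ≤ P.ord (algebraMap L K (f b)) := fun b =>
      (gen_sec hp (hgen.1 b).2 P hP).resolve_left (hF0 b)
    have h3 : - ∑ i, μ i * δ' i P ≤ -(β P) := by
      rw [← hv]
      calc - ∑ i, μ i * δ' i P = ∑ b, e b * (- ∑ i, (g b i : ℚ) * δ' i P) := by
            simp only [mul_neg, Finset.mul_sum, Finset.sum_neg_distrib]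
            rw [Finset.sum_comm]
            congr 1
            refine Finset.sum_congr rfl fun i _ => ?_
            rw [← he.2 i, Finset.sum_mul]
            exact Finset.sum_congr rfl fun b _ => by ring
        _ ≤ _ := Finset.sum_le_sum fun b _ => mul_le_mul_of_nonneg_left (h2 b) (he.1 b)
    have h4 : ∑ i, (ν' i : ℚ) * δ' i P = m' * ∑ i, μ i * δ' i P := by
      rw [Finset.mul_sum]
      refine Finset.sum_congr rfl fun i _ => ?_
      rw [← hν' i]
      ring
    rw [h4]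
    have h5 := mul_le_mul_of_nonneg_left h3 (Nat.cast_nonneg (α := ℚ) m')
    linarith
  · obtain ⟨e, he, hv⟩ := (h P hP).2
    refine ⟨∏ b, algebraMap L K (f b) ^ e b,
      Finset.prod_ne_zero_iff.2 fun b _ => pow_ne_zero _ (hF0 b), ?_, ?_⟩
    · have h1 := hprod e
      have h2 : (fun i => ∑ b, (e b : ℤ) * g b i) = ν := funext he
      rw [h2] at h1
      exact h1
    · rw [ord_prod P hF0]
      push_cast
      rw [hv]
      exact le_of_eq (by ring)

/-- classes in the same chamber have the same ample model -/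
theorem dom {δ : Fin p → Place ℂ L → ℚ} {δ' : Fin p → Place ℂ K → ℚ} (hp : Pull N δ δ')
    {g : Fin n → Fin p → ℤ} {f : Fin n → L} (hgen : Gen N δ g f) {lam lam' : Fin p → ℚ}
    {α α' : Place ℂ K → ℚ} (h : Mdl N δ' 0 lam α 0) (h' : Mdl N δ' 0 lam' α' 0)
    (hs : sg g lam = sg g lam') :
    ∃ s : ℚ, 0 < s ∧ Mdl N δ' 0 (fun i => lam i - s * lam' i) (fun P => α P - s * α' P) 0 := by
  obtain ⟨s, hs0, m, ν, hm, hν, hc⟩ := chamber hs
  refine ⟨s, hs0, semi hp hgen hm hν fun P hP => ?_⟩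
  obtain ⟨ε, hε, h1⟩ := opt_of_mdl hp hgen h
  obtain ⟨ε', hε', h1'⟩ := opt_of_mdl hp hgen h'
  have h2 := h1 P hP 0 le_rfl hε.le
  have h2' := h1' P hP 0 le_rfl hε'.le
  simp only [zero_mul, add_zero] at h2 h2'
  have h3 := hc _ _ _ h2 h2'
  have h4 : -(α P) - s * -(α' P) = -(α P - s * α' P) := by ring
  rw [h4] at h3
  exact h3

end cover

end Pool.Agent.P8H56.FL
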