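import Pool.Agent.P8H56.FL.Amp

/-!
Finiteness of the ample models: finite correspondences.
-/

set_option autoImplicit false
set_option linter.overlappingInstances false
set_option linter.unusedSectionVars false
set_option maxHeartbeats 1000000

open FF Pool.Agent.W602.GT

namespace Pool.Agent.P8H56.FL

variable {p N n : ℕ}

variable {L K M : Type} [Field L] [Algebra ℂ L] [Field K] [Algebra ℂ K] [Field M] [Algebra ℂ M]
  [Algebra L M] [IsScalarTower ℂ L M] [FiniteDimensional L M]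
  [Algebra K M] [IsScalarTower ℂ K M] [FiniteDimensional K M]

/-- classes in the same chamber have the same ample model -/
theorem dom_corr {δ : Fin p → Place ℂ L → ℚ} {δK : Fin p → Place ℂ K → ℚ}
    {δ' δ2 : Fin p → Place ℂ M → ℚ} (hp : Pull N δ δ') (hpK : Pull N δK δ2) {q : ℕ} (hq : 1 ≤ q)
    {h : Fin p → M} (hlin : Lin N q h δ' δ2) {g : Fin n → Fin p → ℤ} {f : Fin n → L}
    (hgen : Gen N δ g f) {lam lam' : Fin p → ℚ} {α α' : Place ℂ K → ℚ}
    (hm : Mdl N δK 0 lam α 0) (hm' : Mdl N δK 0 lam' α' 0) (hs : sg g lam = sg g lam') :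
    ∃ s : ℚ, 0 < s ∧ Mdl N δK 0 (fun i => lam i - s * lam' i) (fun P => α P - s * α' P) 0 := by
  classical
  -- up to `M`
  have hup : ∀ {lam : Fin p → ℚ} {α : Place ℂ K → ℚ}, Mdl N δK 0 lam α 0 →
      Mdl N δ' 0 lam (fun W => pb K α W + ∑ i, lam i * ((W.ord (h i)⁻¹ : ℚ) / q)) 0 := by
    intro lam α hα
    have h1 : Mdl N δ2 0 lam (pb K α) 0 := mdl_up (k' := 0) hpK (fun P Q e h => pb_eq _ P Q e h)
      (fun P Q e _ => by simp) hα
    refine mdl_congr (fun P _ => rfl) (fun P _ => ?_) (mdl_twist hq (Lin.symm hlin) h1)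
    simp
  obtain ⟨s, hs0, h1⟩ := dom hp hgen (hup hm) (hup hm') hs
  refine ⟨s, hs0, ?_⟩
  -- back to the divisors over `K`
  have h2 := mdl_twist hq hlin h1
  have h3 : Mdl N δ2 0 (fun i => lam i - s * lam' i) (fun W => pb K α W - s * pb K α' W) 0 := by
    refine mdl_congr (fun W _ => ?_) (fun W _ => ?_) h2
    · have h4 : ∀ c : Fin p → ℚ, ∑ i, c i * ((W.ord (h i)⁻¹ : ℚ) / q) =
          - ∑ i, c i * ((W.ord (h i) : ℚ) / q) := by
        intro c
        rw [← Finset.sum_neg_distrib]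
        refine Finset.sum_congr rfl fun i _ => ?_
        rw [W.ord_inv]
        push_cast
        ring
      have h5 : ∑ i, (lam i - s * lam' i) * ((W.ord (h i) : ℚ) / q) =
          ∑ i, lam i * ((W.ord (h i) : ℚ) / q) - s * ∑ i, lam' i * ((W.ord (h i) : ℚ) / q) := by
        rw [Finset.mul_sum, ← Finset.sum_sub_distrib]
        exact Finset.sum_congr rfl fun i _ => by ring
      rw [h4, h4, h5]
      ring
    · simp
  obtain ⟨h6, h7⟩ := mdl_down hpK h3
  refine mdl_congr (fun P hP => ?_) (fun P hP => ?_) h6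
  · obtain ⟨W, e, hW⟩ := exists_above (K := M) P
    have h8 := (h7 P W e hP hW).1
    rw [pb_eq _ P W e hW, pb_eq _ P W e hW] at h8
    have he : (e : ℚ) ≠ 0 := by
      have := hW.1
      positivity
    have h9 : (e : ℚ) * (α P - s * α' P) =
        e * dn K (fun W : Place ℂ M => pb K α W - s * pb K α' W) P := by linarith
    exact (mul_left_cancel₀ he h9).symm
  · obtain ⟨W, e, hW⟩ := exists_above (K := M) P
    have h8 := (h7 P W e hP hW).2
    have he : (e : ℚ) ≠ 0 := by
      have := hW.1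
      positivity
    have h9 : (e : ℚ) * 0 = e * dn K (0 : Place ℂ M → ℚ) P := by
      rw [← h8]
      simp
    exact (mul_left_cancel₀ he h9).symm

/-- **Finiteness of the ample models.** -/
theorem amp_fin {δ : Fin p → Place ℂ L → ℚ} {δK : Fin p → Place ℂ K → ℚ}
    {δ' δ2 : Fin p → Place ℂ M → ℚ} (hp : Pull N δ δ') (hpK : Pull N δK δ2) {q : ℕ} (hq : 1 ≤ q)
    {h : Fin p → M} (hlin : Lin N q h δ' δ2) {g : Fin n → Fin p → ℤ} {f : Fin n → L}
    (hgen : Gen N δ g f) (lam : Fin (Fintype.card (Finset (Finset (Fin n))) + 1) → Fin p → ℚ)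
    (α : Fin (Fintype.card (Finset (Finset (Fin n))) + 1) → Place ℂ K → ℚ)
    (hm : ∀ j, Mdl N δK 0 (lam j) (α j) 0) :
    ∃ j j' : Fin (Fintype.card (Finset (Finset (Fin n))) + 1), j < j' ∧
      (∃ s : ℚ, 0 < s ∧ Mdl N δK 0 (fun i => lam j i - s * lam j' i)
        (fun P => α j P - s * α j' P) 0) ∧
      ∃ s : ℚ, 0 < s ∧ Mdl N δK 0 (fun i => lam j' i - s * lam j i)
        (fun P => α j' P - s * α j P) 0 := by
  classical
  obtain ⟨j, j', hne, heq⟩ := Fintype.exists_ne_map_eq_of_card_lt (fun j => sg g (lam j)) (by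
    rw [Fintype.card_fin]
    exact Nat.lt_succ_self _)
  have key : ∀ j j', sg g (lam j) = sg g (lam j') → ∃ s : ℚ, 0 < s ∧
      Mdl N δK 0 (fun i => lam j i - s * lam j' i) (fun P => α j P - s * α j' P) 0 :=
    fun j j' h => dom_corr hp hpK hq hlin hgen (hm j) (hm j') h
  rcases lt_or_gt_of_ne hne with hlt | hlt
  · exact ⟨j, j', hlt, key j j' heq, key j' j heq.symm⟩
  · exact ⟨j', j, hlt, key j' j heq.symm, key j j' heq⟩

end Pool.Agent.P8H56.FL
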