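import Pool.Agent.P8H56.FL.Amp2

/-!
Finiteness of the ample models: rings of sections for the combinations in a convex cone.
-/

set_option autoImplicit false
set_option linter.overlappingInstances false
set_option linter.unusedSectionVars false
set_option maxHeartbeats 1000000

open FF Pool.Agent.W602.GT

namespace Pool.Agent.P8H56.FL

variable {p N n : ℕ} {C : PointedCone ℚ (Fin p → ℚ)}

/-- homogeneous generators of the ring of the sections of the combinations in the cone -/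
def GenC {L : Type} [Field L] [Algebra ℂ L] (C : PointedCone ℚ (Fin p → ℚ)) (N : ℕ)
    (δ : Fin p → Place ℂ L → ℚ) (g : Fin n → Fin p → ℤ) (f : Fin n → L) : Prop :=
  (∀ b, f b ≠ 0 ∧ (fun i => (g b i : ℚ)) ∈ C ∧ Sec N δ (g b) (f b)) ∧
    ∀ (μ : Fin p → ℤ), (fun i => (μ i : ℚ)) ∈ C → ∀ s : L, Sec N δ μ s →
      s ∈ Submodule.span ℂ {t : L | ∃ e : Fin n → ℕ, (∀ i, ∑ b, (e b : ℤ) * g b i = μ i) ∧
        t = ∏ b, f b ^ e b}

theorem cone_smul {x : Fin p → ℚ} (hx : x ∈ C) {c : ℚ} (hc : 0 ≤ c) :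
    (fun i => c * x i) ∈ C := C.smul_mem hc hx

theorem cone_rep {g : Fin n → Fin p → ℤ} (hg : ∀ b, (fun i => (g b i : ℚ)) ∈ C)
    {e : Fin n → ℚ} {μ : Fin p → ℚ} (he : Rp g e μ) : μ ∈ C := by
  have h1 : μ = ∑ b, fun i => e b * (g b i : ℚ) := by
    funext i
    rw [Finset.sum_apply, ← he.2 i]
  rw [h1]
  exact C.sum_mem fun b _ => cone_smul (hg b) (he.1 b)

section cover

variable {L K : Type} [Field L] [Algebra ℂ L] [Field K] [Algebra ℂ K] [Algebra L K]
  [IsScalarTower ℂ L K] [FiniteDimensional L K]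

theorem gen_lowC {δ : Fin p → Place ℂ L → ℚ} {g : Fin n → Fin p → ℤ} {f : Fin n → L}
    (h : GenC C N δ g f) {μ : Fin p → ℤ} (hμ : (fun i => (μ i : ℚ)) ∈ C) {s : L}
    (hs : Sec N δ μ s) (hs0 : s ≠ 0) (P : Place ℂ L) :
    ∃ e : Fin n → ℕ, (∀ i, ∑ b, (e b : ℤ) * g b i = μ i) ∧
      ∑ b, (e b : ℤ) * P.ord (f b) ≤ P.ord s := by
  classical
  have key : ∀ s ∈ Submodule.span ℂ {t : L | ∃ e : Fin n → ℕ,
      (∀ i, ∑ b, (e b : ℤ) * g b i = μ i) ∧ t = ∏ b, f b ^ e b}, s ≠ 0 →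
      ∃ e : Fin n → ℕ, (∀ i, ∑ b, (e b : ℤ) * g b i = μ i) ∧
        ∑ b, (e b : ℤ) * P.ord (f b) ≤ P.ord s := by
    intro s hs
    induction hs using Submodule.span_induction with
    | mem x hx =>
      intro _
      obtain ⟨e, he, rfl⟩ := hx
      exact ⟨e, he, (ord_prod P (fun b => (h.1 b).1) e).ge⟩
    | zero => exact fun h0 => absurd rfl h0
    | add x y _ _ ihx ihy =>
      intro h0
      by_cases hx : x = 0
      · rw [hx, zero_add] at h0 ⊢
        exact ihy h0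
      by_cases hy : y = 0
      · rw [hy, add_zero]
        exact ihx hx
      rcases min_le_iff.1 (P.ord_add hx hy h0) with h1 | h1
      · obtain ⟨e, he1, he2⟩ := ihx hx
        exact ⟨e, he1, he2.trans h1⟩
      · obtain ⟨e, he1, he2⟩ := ihy hy
        exact ⟨e, he1, he2.trans h1⟩
    | smul a x _ ih =>
      intro h0
      have ha : a ≠ 0 := fun h1 => h0 (by rw [h1, zero_smul])
      have hx : x ≠ 0 := fun h1 => h0 (by rw [h1, smul_zero])
      obtain ⟨e, he1, he2⟩ := ih hx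
      refine ⟨e, he1, he2.trans (le_of_eq ?_)⟩
      rw [Algebra.smul_def, P.ord_mul ((_root_.map_ne_zero _).2 ha) hx, P.ord_const ha, zero_add]
  exact key s (h.2 μ hμ s hs) hs0

/-- **The orders of the sections on the cover.** -/
theorem cover_lowC {δ : Fin p → Place ℂ L → ℚ} {δ' : Fin p → Place ℂ K → ℚ} (hp : Pull N δ δ')
    {g : Fin n → Fin p → ℤ} {f : Fin n → L} (hgen : GenC C N δ g f) {μ : Fin p → ℤ}
    (hμ : (fun i => (μ i : ℚ)) ∈ C) {η : K}
    (hη : Sec N δ' μ η) (hη0 : η ≠ 0) (Q : Place ℂ K) :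
    ∃ (k : ℕ) (e : Fin n → ℕ), 1 ≤ k ∧ (∀ i, ∑ b, (e b : ℤ) * g b i = k * μ i) ∧
      ∑ b, (e b : ℤ) * Q.ord (algebraMap L K (f b)) ≤ k * Q.ord η := by
  classical
  obtain ⟨k, c, hk, hc0, hc, hle⟩ := cover_sec hp hη hη0 Q
  obtain ⟨e, P, hP⟩ := exists_below (L := L) Q
  have hkμ : (fun i => (((k : ℤ) * μ i : ℤ) : ℚ)) ∈ C := by
    have h1 := cone_smul hμ (Nat.cast_nonneg (α := ℚ) k)
    have h2 : (fun i => (((k : ℤ) * μ i : ℤ) : ℚ)) = fun i => (k : ℚ) * (μ i : ℚ) := by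
      funext i
      push_cast
      rfl
    rw [h2]
    exact h1
  obtain ⟨b, hb1, hb2⟩ := gen_lowC hgen hkμ hc hc0 P
  refine ⟨k, b, hk, hb1, le_trans ?_ hle⟩
  have h3 : ∑ b', (b b' : ℤ) * Q.ord (algebraMap L K (f b')) =
      e * ∑ b', (b b' : ℤ) * P.ord (f b') := by
    rw [Finset.mul_sum]
    refine Finset.sum_congr rfl fun b' _ => ?_
    rw [hP.2]
    ring
  rw [h3, hP.2]
  exact mul_le_mul_of_nonneg_left hb2 (Int.natCast_nonneg e)

theorem prod_sec {δ : Fin p → Place ℂ L → ℚ} {δ' : Fin p → Place ℂ K → ℚ} (hp : Pull N δ δ')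
    {g : Fin n → Fin p → ℤ} {f : Fin n → L} (hf : ∀ b, f b ≠ 0 ∧ Sec N δ (g b) (f b))
    (e : Fin n → ℕ) : Sec N δ' (fun i => ∑ b, (e b : ℤ) * g b i)
      (∏ b, algebraMap L K (f b) ^ e b) := by
  have hF0 : ∀ b, algebraMap L K (f b) ≠ 0 := fun b => (_root_.map_ne_zero _).2 (hf b).1
  intro Q hQ
  right
  rw [ord_prod Q hF0]
  have h2 : ∀ b, - ∑ i, (g b i : ℚ) * δ' i Q ≤ Q.ord (algebraMap L K (f b)) := fun b =>
    (gen_sec hp (hf b).2 Q hQ).resolve_left (hF0 b)
  push_cast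
  calc - ∑ i, (∑ b, (e b : ℚ) * (g b i : ℚ)) * δ' i Q
      = ∑ b, (e b : ℚ) * (- ∑ i, (g b i : ℚ) * δ' i Q) := by
        simp only [Finset.sum_mul, mul_neg, Finset.mul_sum, Finset.sum_neg_distrib]
        rw [Finset.sum_comm]
        congr 1
        refine Finset.sum_congr rfl fun b _ => Finset.sum_congr rfl fun i _ => by ring
    _ ≤ _ := Finset.sum_le_sum fun b _ => mul_le_mul_of_nonneg_left (h2 b) (Nat.cast_nonneg _)

theorem optC {δ : Fin p → Place ℂ L → ℚ} {δ' : Fin p → Place ℂ K → ℚ} (hp : Pull N δ δ')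
    {g : Fin n → Fin p → ℤ} {f : Fin n → L} (hgen : GenC C N δ g f)
    {lam : Fin p → ℚ} (hlam : lam ∈ C) {α : Place ℂ K → ℚ} (h : Mdl N δ' 0 lam α 0)
    {P : Place ℂ K} (hP : Divisorial N P) :
    Opt g (fun b => (P.ord (algebraMap L K (f b)) : ℚ)) lam (-(α P)) := by
  classical
  obtain ⟨ε, hε, h⟩ := h
  have h0 := h 0 le_rfl hε.le
  simp only [zero_mul, add_zero] at h0
  obtain ⟨ha, m, hm, ν, hν, hb⟩ := h0
  have hF0 : ∀ b, algebraMap L K (f b) ≠ 0 := fun b => (_root_.map_ne_zero _).2 (hgen.1 b).1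
  have low : ∀ e, Rp g e lam → -(α P) ≤ ∑ b, e b * (P.ord (algebraMap L K (f b)) : ℚ) := by
    intro e he
    obtain ⟨M, hM, e', he'⟩ := exists_den e he.1
    have hM0 : (0 : ℚ) < M := by exact_mod_cast hM
    have h1 := prod_sec hp (fun b => ⟨(hgen.1 b).1, (hgen.1 b).2.2⟩) e'
    have h2 : ∀ i, (M : ℚ) * lam i = ((∑ b, (e' b : ℤ) * g b i : ℤ) : ℚ) := by
      intro i
      rw [← he.2 i, Finset.mul_sum]
      push_cast
      refine Finset.sum_congr rfl fun b _ => ?_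
      rw [← mul_assoc, he' b]
    have h3 := ((ha M _ h2 _).1 h1 P hP).resolve_left
      (Finset.prod_ne_zero_iff.2 fun b _ => pow_ne_zero _ (hF0 b))
    rw [ord_prod P hF0] at h3
    have h4 : ((∑ b, (e' b : ℤ) * P.ord (algebraMap L K (f b)) : ℤ) : ℚ) =
        M * ∑ b, e b * (P.ord (algebraMap L K (f b)) : ℚ) := by
      rw [Finset.mul_sum]
      push_cast
      refine Finset.sum_congr rfl fun b _ => ?_
      rw [← he' b]
      ring
    rw [h4] at h3
    have h5 : (M : ℚ) * (-(α P)) ≤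
        M * ∑ b, e b * (P.ord (algebraMap L K (f b)) : ℚ) := by linarith
    exact le_of_mul_le_mul_left h5 hM0
  refine ⟨low, ?_⟩
  obtain ⟨η, hη0, hη, hle⟩ := hb P hP
  have hνC : (fun i => (ν i : ℚ)) ∈ C := by
    have h1 := cone_smul hlam (Nat.cast_nonneg (α := ℚ) m)
    have h2 : (fun i => (ν i : ℚ)) = fun i => (m : ℚ) * lam i := funext fun i => (hν i).symm
    rw [h2]
    exact h1
  obtain ⟨k', e, hk', he1, he2⟩ := cover_lowC hp hgen hνC hη hη0 P
  have hm0 : (0 : ℚ) < m := by exact_mod_cast hm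
  have hk0 : (0 : ℚ) < k' := by exact_mod_cast hk'
  have hr : Rp g (fun b => (e b : ℚ) / (k' * m)) lam := by
    refine ⟨fun b => by positivity, fun i => ?_⟩
    have h5 : ∑ b, (e b : ℚ) / (k' * m) * g b i = (∑ b, (e b : ℚ) * g b i) / (k' * m) := by
      rw [Finset.sum_div]
      exact Finset.sum_congr rfl fun b _ => by ring
    have h6 : ∑ b, (e b : ℚ) * g b i = k' * ν i := by
      have h7 := he1 i
      have h8 : ((∑ b, (e b : ℤ) * g b i : ℤ) : ℚ) = ((k' * ν i : ℤ) : ℚ) := by rw [h7]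
      push_cast at h8
      exact h8
    rw [h5, h6, ← hν i]
    field_simp
  refine ⟨_, hr, le_antisymm ?_ (low _ hr)⟩
  have h5 : ∑ b, (e b : ℚ) / (k' * m) * (P.ord (algebraMap L K (f b)) : ℚ) =
      (∑ b, (e b : ℚ) * P.ord (algebraMap L K (f b))) / (k' * m) := by
    rw [Finset.sum_div]
    exact Finset.sum_congr rfl fun b _ => by ring
  have h6 : ∑ b, (e b : ℚ) * (P.ord (algebraMap L K (f b)) : ℚ) ≤ k' * (P.ord η : ℚ) := by
    exact_mod_cast he2
  rw [h5, div_le_iff₀ (mul_pos hk0 hm0)]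
  have h7 := mul_le_mul_of_nonneg_left hle hk0.le
  linarith

/-- **Semiample classes from the chambers.** -/
theorem semiC {δ : Fin p → Place ℂ L → ℚ} {δ' : Fin p → Place ℂ K → ℚ} (hp : Pull N δ δ')
    {g : Fin n → Fin p → ℤ} {f : Fin n → L} (hgen : GenC C N δ g f) {μ : Fin p → ℚ}
    {β : Place ℂ K → ℚ} {m : ℕ} {ν : Fin p → ℤ} (hm : 1 ≤ m) (hν : ∀ i, (m : ℚ) * μ i = ν i)
    (h : ∀ P : Place ℂ K, Divisorial N P →
      Opt g (fun b => (P.ord (algebraMap L K (f b)) : ℚ)) μ (-(β P)) ∧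
      ∃ e : Fin n → ℕ, (∀ i, ∑ b, (e b : ℤ) * g b i = ν i) ∧
        ∑ b, (e b : ℚ) * (P.ord (algebraMap L K (f b)) : ℚ) = m * (-(β P))) :
    Mdl N δ' 0 μ β 0 := by
  classical
  have hF0 : ∀ b, algebraMap L K (f b) ≠ 0 := fun b => (_root_.map_ne_zero _).2 (hgen.1 b).1
  refine ⟨1, one_pos, fun t ht0 ht1 => ?_⟩
  have hμ : ∀ i, μ i + t * (0 : Fin p → ℚ) i = μ i := fun i => by simp
  have hβ : ∀ P : Place ℂ K, β P + t * (0 : Place ℂ K → ℚ) P = β P := fun P => by simp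
  simp only [hμ, hβ]
  refine ⟨fun m' ν' hν' s => ⟨fun hs P hP => ?_, fun hs P hP => ?_⟩, m, hm, ν, hν,
    fun P hP => ?_⟩
  · by_cases hs0 : s = 0
    · exact Or.inl hs0
    right
    rcases Nat.eq_zero_or_pos m' with hm0 | hm0
    · have h1 := (hs P hP).resolve_left hs0
      have h2 : ∀ i, (ν' i : ℚ) = 0 := fun i => by rw [← hν' i, hm0]; simp
      rw [hm0]
      simp only [h2, zero_mul, Finset.sum_const_zero, neg_zero] at h1
      simpa using h1
    · have hνC : (fun i => (ν' i : ℚ)) ∈ C := by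
        obtain ⟨e, he, -⟩ := (h P hP).1.2
        have h1 := cone_smul (cone_rep (fun b => (hgen.1 b).2.1) he)
          (Nat.cast_nonneg (α := ℚ) m')
        have h2 : (fun i => (ν' i : ℚ)) = fun i => (m' : ℚ) * μ i := funext fun i => (hν' i).symm
        rw [h2]
        exact h1
      obtain ⟨k, e, hk, he1, he2⟩ := cover_lowC hp hgen hνC hs hs0 P
      have hm0' : (0 : ℚ) < m' := by exact_mod_cast hm0
      have hk0 : (0 : ℚ) < k := by exact_mod_cast hk
      have hr : Rp g (fun b => (e b : ℚ) / (k * m')) μ := by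
        refine ⟨fun b => by positivity, fun i => ?_⟩
        have h5 : ∑ b, (e b : ℚ) / (k * m') * g b i = (∑ b, (e b : ℚ) * g b i) / (k * m') := by
          rw [Finset.sum_div]
          exact Finset.sum_congr rfl fun b _ => by ring
        have h6 : ∑ b, (e b : ℚ) * g b i = k * ν' i := by
          have h7 := he1 i
          have h8 : ((∑ b, (e b : ℤ) * g b i : ℤ) : ℚ) = ((k * ν' i : ℤ) : ℚ) := by rw [h7]
          push_cast at h8
          exact h8
        rw [h5, h6, ← hν' i]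
        field_simp
      have h1 := (h P hP).1.1 _ hr
      have h5 : ∑ b, (e b : ℚ) / (k * m') * (P.ord (algebraMap L K (f b)) : ℚ) =
          (∑ b, (e b : ℚ) * P.ord (algebraMap L K (f b))) / (k * m') := by
        rw [Finset.sum_div]
        exact Finset.sum_congr rfl fun b _ => by ring
      have h6 : ∑ b, (e b : ℚ) * (P.ord (algebraMap L K (f b)) : ℚ) ≤ k * (P.ord s : ℚ) := by
        exact_mod_cast he2
      rw [h5, le_div_iff₀ (mul_pos hk0 hm0')] at h1
      have h7 : (k : ℚ) * (-(m' * β P)) ≤ k * P.ord s := by linarith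
      exact le_of_mul_le_mul_left h7 hk0
  · by_cases hs0 : s = 0
    · exact Or.inl hs0
    right
    have h1 := (hs P hP).resolve_left hs0
    obtain ⟨e, he, hv⟩ := (h P hP).1.2
    have h2 : ∀ b, - ∑ i, (g b i : ℚ) * δ' i P ≤ P.ord (algebraMap L K (f b)) := fun b =>
      (gen_sec hp (hgen.1 b).2.2 P hP).resolve_left (hF0 b)
    have h3 : - ∑ i, μ i * δ' i P ≤ -(β P) := by
      rw [← hv]
      calc - ∑ i, μ i * δ' i P = ∑ b, e b * (- ∑ i, (g b i : ℚ) * δ' i P) := by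
            simp only [mul_neg, Finset.mul_sum, Finset.sum_neg_distrib]
            rw [Finset.sum_comm]
            congr 1
            refine Finset.sum_congr rfl fun i _ => ?_
            rw [← he.2 i, Finset.sum_mul]
            exact Finset.sum_congr rfl fun b _ => by ring
        _ ≤ _ := Finset.sum_le_sum fun b _ => mul_le_mul_of_nonneg_left (h2 b) (he.1 b)
    have h4 : ∑ i, (ν' i : ℚ) * δ' i P = m' * ∑ i, μ i * δ' i P := by
      rw [Finset.mul_sum]
      refine Finset.sum_congr rfl fun i _ => ?_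
      rw [← hν' i]
      ring
    rw [h4]
    have h5 := mul_le_mul_of_nonneg_left h3 (Nat.cast_nonneg (α := ℚ) m')
    linarith
  · obtain ⟨e, he, hv⟩ := (h P hP).2
    refine ⟨∏ b, algebraMap L K (f b) ^ e b,
      Finset.prod_ne_zero_iff.2 fun b _ => pow_ne_zero _ (hF0 b), ?_, ?_⟩
    · have h1 := prod_sec hp (fun b => ⟨(hgen.1 b).1, (hgen.1 b).2.2⟩) e
      have h2 : (fun i => ∑ b, (e b : ℤ) * g b i) = ν := funext he
      rw [h2] at h1
      exact h1
    · rw [ord_prod P hF0]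
      push_cast
      rw [hv]
      exact le_of_eq (by ring)

/-- classes in the same chamber have the same ample model -/
theorem domC {δ : Fin p → Place ℂ L → ℚ} {δ' : Fin p → Place ℂ K → ℚ} (hp : Pull N δ δ')
    {g : Fin n → Fin p → ℤ} {f : Fin n → L} (hgen : GenC C N δ g f) {lam lam' : Fin p → ℚ}
    (hl : lam ∈ C) (hl' : lam' ∈ C) {α α' : Place ℂ K → ℚ} (h : Mdl N δ' 0 lam α 0)
    (h' : Mdl N δ' 0 lam' α' 0) (hs : sg g lam = sg g lam') :
    ∃ s : ℚ, 0 < s ∧ Mdl N δ' 0 (fun i => lam i - s * lam' i) (fun P => α P - s * α' P) 0 := by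
  obtain ⟨s, hs0, m, ν, hm, hν, hc⟩ := chamber hs
  refine ⟨s, hs0, semiC hp hgen hm hν fun P hP => ?_⟩
  have h3 := hc _ _ _ (optC hp hgen hl h hP) (optC hp hgen hl' h' hP)
  have h4 : -(α P) - s * -(α' P) = -(α P - s * α' P) := by ring
  rw [h4] at h3
  exact h3

end cover

section corr

variable {L K M : Type} [Field L] [Algebra ℂ L] [Field K] [Algebra ℂ K] [Field M] [Algebra ℂ M]
  [Algebra L M] [IsScalarTower ℂ L M] [FiniteDimensional L M]
  [Algebra K M] [IsScalarTower ℂ K M] [FiniteDimensional K M]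

/-- classes in the same chamber have the same ample model -/
theorem dom_corrC {δ : Fin p → Place ℂ L → ℚ} {δK : Fin p → Place ℂ K → ℚ}
    {δ' δ2 : Fin p → Place ℂ M → ℚ} (hp : Pull N δ δ') (hpK : Pull N δK δ2) {q : ℕ} (hq : 1 ≤ q)
    {h : Fin p → M} (hlin : Lin N q h δ' δ2) {g : Fin n → Fin p → ℤ} {f : Fin n → L}
    (hgen : GenC C N δ g f) {lam lam' : Fin p → ℚ} (hl : lam ∈ C) (hl' : lam' ∈ C)
    {α α' : Place ℂ K → ℚ}
    (hm : Mdl N δK 0 lam α 0) (hm' : Mdl N δK 0 lam' α' 0) (hs : sg g lam = sg g lam') :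
    ∃ s : ℚ, 0 < s ∧ Mdl N δK 0 (fun i => lam i - s * lam' i) (fun P => α P - s * α' P) 0 := by
  classical
  -- up to `M`
  have hup : ∀ {lam : Fin p → ℚ} {α : Place ℂ K → ℚ}, Mdl N δK 0 lam α 0 →
      Mdl N δ' 0 lam (fun W => pb K α W + ∑ i, lam i * ((W.ord (h i)⁻¹ : ℚ) / q)) 0 := by
    intro lam α hα
    have h1 : Mdl N δ2 0 lam (pb K α) 0 := mdl_up (k' := 0) hpK (fun P Q e h => pb_eq _ P Q e h)
      (fun P Q e _ => by simp) hα
    refine mdl_congr (fun P _ => rfl) (fun P _ => ?_) (mdl_twist hq (Lin.symm hlin) h1)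
    simp
  obtain ⟨s, hs0, h1⟩ := domC hp hgen hl hl' (hup hm) (hup hm') hs
  refine ⟨s, hs0, ?_⟩
  -- back to the divisors over `K`
  have h2 := mdl_twist hq hlin h1
  have h3 : Mdl N δ2 0 (fun i => lam i - s * lam' i) (fun W => pb K α W - s * pb K α' W) 0 := by
    refine mdl_congr (fun W _ => ?_) (fun W _ => ?_) h2
    · have h4 : ∀ c : Fin p → ℚ, ∑ i, c i * ((W.ord (h i)⁻¹ : ℚ) / q) =
          - ∑ i, c i * ((W.ord (h i) : ℚ) / q) := by
        intro c
        rw [← Finset.sum_neg_distrib]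
        refine Finset.sum_congr rfl fun i _ => ?_
        rw [W.ord_inv]
        push_cast
        ring
      have h5 : ∑ i, (lam i - s * lam' i) * ((W.ord (h i) : ℚ) / q) =
          ∑ i, lam i * ((W.ord (h i) : ℚ) / q) - s * ∑ i, lam' i * ((W.ord (h i) : ℚ) / q) := by
        rw [Finset.mul_sum, ← Finset.sum_sub_distrib]
        exact Finset.sum_congr rfl fun i _ => by ring
      rw [h4, h4, h5]
      ring
    · simp
  obtain ⟨h6, h7⟩ := mdl_down hpK h3
  refine mdl_congr (fun P hP => ?_) (fun P hP => ?_) h6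
  · obtain ⟨W, e, hW⟩ := exists_above (K := M) P
    have h8 := (h7 P W e hP hW).1
    rw [pb_eq _ P W e hW, pb_eq _ P W e hW] at h8
    have he : (e : ℚ) ≠ 0 := by
      have := hW.1
      positivity
    have h9 : (e : ℚ) * (α P - s * α' P) =
        e * dn K (fun W : Place ℂ M => pb K α W - s * pb K α' W) P := by linarith
    exact (mul_left_cancel₀ he h9).symm
  · obtain ⟨W, e, hW⟩ := exists_above (K := M) P
    have h8 := (h7 P W e hP hW).2
    have he : (e : ℚ) ≠ 0 := by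
      have := hW.1
      positivity
    have h9 : (e : ℚ) * 0 = e * dn K (0 : Place ℂ M → ℚ) P := by
      rw [← h8]
      simp
    exact (mul_left_cancel₀ he h9).symm

/-- **Finiteness of the ample models.** -/
theorem amp_finC {δ : Fin p → Place ℂ L → ℚ} {δK : Fin p → Place ℂ K → ℚ}
    {δ' δ2 : Fin p → Place ℂ M → ℚ} (hp : Pull N δ δ') (hpK : Pull N δK δ2) {q : ℕ} (hq : 1 ≤ q)
    {h : Fin p → M} (hlin : Lin N q h δ' δ2) {g : Fin n → Fin p → ℤ} {f : Fin n → L}
    (hgen : GenC C N δ g f)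
    (lam : Fin (Fintype.card (Finset (Finset (Fin n))) + 1) → Fin p → ℚ) (hl : ∀ j, lam j ∈ C)
    (α : Fin (Fintype.card (Finset (Finset (Fin n))) + 1) → Place ℂ K → ℚ)
    (hm : ∀ j, Mdl N δK 0 (lam j) (α j) 0) :
    ∃ j j' : Fin (Fintype.card (Finset (Finset (Fin n))) + 1), j < j' ∧
      (∃ s : ℚ, 0 < s ∧ Mdl N δK 0 (fun i => lam j i - s * lam j' i)
        (fun P => α j P - s * α j' P) 0) ∧
      ∃ s : ℚ, 0 < s ∧ Mdl N δK 0 (fun i => lam j' i - s * lam j i)
        (fun P => α j' P - s * α j P) 0 := by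
  classical
  obtain ⟨j, j', hne, heq⟩ := Fintype.exists_ne_map_eq_of_card_lt (fun j => sg g (lam j)) (by
    rw [Fintype.card_fin]
    exact Nat.lt_succ_self _)
  have key : ∀ j j', sg g (lam j) = sg g (lam j') → ∃ s : ℚ, 0 < s ∧
      Mdl N δK 0 (fun i => lam j i - s * lam j' i) (fun P => α j P - s * α j' P) 0 :=
    fun j j' h => dom_corrC hp hpK hq hlin hgen (hl j) (hl j') (hm j) (hm j') h
  rcases lt_or_gt_of_ne hne with hlt | hlt
  · exact ⟨j, j', hlt, key j j' heq, key j' j heq.symm⟩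
  · exact ⟨j', j, hlt, key j' j heq.symm, key j j' heq⟩

end corr

end Pool.Agent.P8H56.FL
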