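import Pool.Agent.P8H56.FL.Fin

/-!
Models and finite correspondences.
-/

set_option autoImplicit false
set_option linter.overlappingInstances false
set_option linter.unusedSectionVars false
set_option maxHeartbeats 1000000

open FF Pool.Agent.W602.GT

namespace Pool.Agent.P8H56.FL

variable {p N n : ℕ}

section uniq

variable {L K : Type} [Field L] [Algebra ℂ L] [Field K] [Algebra ℂ K] [Algebra L K]
  [IsScalarTower ℂ L K]

theorem over_unique {Q : Place ℂ K} {P P' : Place ℂ L} {e e' : ℕ} (h : Over Q P e)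
    (h' : Over Q P' e') : P = P' ∧ e = e' := by
  have key : ∀ f : L, (e : ℤ) * P.ord f = e' * P'.ord f := fun f => by rw [← h.2 f, ← h'.2 f]
  have he : (0 : ℤ) < e := by exact_mod_cast h.1
  have he' : (0 : ℤ) < e' := by exact_mod_cast h'.1
  obtain ⟨t, -, ht⟩ := P.surj
  obtain ⟨t', -, ht'⟩ := P'.surj
  have h1 := key t
  have h2 := key t'
  rw [ht, mul_one] at h1
  rw [ht', mul_one] at h2
  have h3 : (e' : ℤ) ∣ e := ⟨_, h1⟩
  have h4 : (e : ℤ) ∣ e' := ⟨_, h2.symm⟩
  have h5 : (e : ℤ) = e' := Int.dvd_antisymm he.le he'.le h4 h3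
  refine ⟨?_, by exact_mod_cast h5⟩
  ext f
  have h6 := key f
  rw [← h5] at h6
  exact mul_left_cancel₀ he.ne' h6

end uniq

section cover

variable {L K : Type} [Field L] [Algebra ℂ L] [Field K] [Algebra ℂ K] [Algebra L K]
  [IsScalarTower ℂ L K] [FiniteDimensional L K]

/-- a section on the base of small order -/
theorem cover_sec {δ : Fin p → Place ℂ L → ℚ} {δ' : Fin p → Place ℂ K → ℚ} (hp : Pull N δ δ')
    {μ : Fin p → ℤ} {η : K} (hη : Sec N δ' μ η) (hη0 : η ≠ 0) (Q : Place ℂ K) :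
    ∃ (k : ℕ) (c : L), 1 ≤ k ∧ c ≠ 0 ∧ Sec N δ (fun i => k * μ i) c ∧
      Q.ord (algebraMap L K c) ≤ k * Q.ord η := by
  classical
  have hL : CharZero L := charZero_of_injective_algebraMap (algebraMap ℂ L).injective
  let Ω := AlgebraicClosure K
  let M := IntermediateField.normalClosure L K Ω
  have h1 : Algebra.IsAlgebraic L Ω := Algebra.IsAlgebraic.trans L K Ω
  have hac : IsAlgClosure L Ω := ⟨inferInstance, inferInstance⟩
  have hnor : Normal L Ω := IsAlgClosure.normal L Ω
  have hfin : FiniteDimensional L M := inferInstance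
  have : Normal L M := inferInstance
  have : IsGalois L M := ⟨⟩
  have : IsScalarTower ℂ L M := inferInstance
  have : IsScalarTower ℂ K M := by
    refine IsScalarTower.of_algebraMap_eq fun x => ?_
    rw [IsScalarTower.algebraMap_apply ℂ L K, ← IsScalarTower.algebraMap_apply L K M,
      ← IsScalarTower.algebraMap_apply ℂ L M]
  have : FiniteDimensional K M := FiniteDimensional.right L K M
  obtain ⟨W, e1, hW⟩ := exists_above (L := K) (K := M) Q
  obtain ⟨e, P, hP⟩ := exists_below (L := L) (K := M) W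
  obtain ⟨e2, hQP, he⟩ := over_mid hW hP
  have hη' : algebraMap K M η ≠ 0 := (map_ne_zero _).2 hη0
  obtain ⟨k, c, hk, hc0, hc, hle⟩ := exists_low (N := N) (δ := δ) (μ := μ) hη'
    (fun W' P' e' h' hP' => by
      obtain ⟨e1', Q', hQ'⟩ := exists_below (L := K) (K := M) W'
      obtain ⟨e2', hQP', he'⟩ := over_mid hQ' h'
      have hdiv : Divisorial N Q' := Pool.Agent.Y172.divisorial_up hQP' hP'
      have h2 := (hη Q' hdiv).resolve_left hη0
      rw [hQ'.2 η, he']
      have h3 : ∑ i, (μ i : ℚ) * δ' i Q' = e2' * ∑ i, (μ i : ℚ) * δ i P' := by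
        rw [Finset.mul_sum]
        refine Finset.sum_congr rfl fun i _ => ?_
        rw [hp i P' Q' e2' hP' hQP']
        ring
      rw [h3] at h2
      push_cast
      have h4 : (0 : ℚ) < e1' := by exact_mod_cast hQ'.1
      have h5 := mul_le_mul_of_nonneg_left h2 h4.le
      linarith) hP
  refine ⟨k, c, hk, hc0, hc, ?_⟩
  have he1 : (0 : ℤ) < e1 := by exact_mod_cast hW.1
  rw [hW.2, he] at hle
  push_cast at hle
  rw [hQP.2]
  have h4 : (e1 : ℤ) * (e2 * P.ord c) ≤ e1 * (k * Q.ord η) := by linarith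
  exact le_of_mul_le_mul_left h4 he1

theorem div_down {Q : Place ℂ K} {P : Place ℂ L} {e : ℕ} (h : Over Q P e)
    (hQ : Divisorial N Q) : Divisorial N P := by
  have hL : CharZero L := charZero_of_injective_algebraMap (algebraMap ℂ L).injective
  exact Pool.Agent.Y172.divisorial_down h hQ

theorem div_up {Q : Place ℂ K} {P : Place ℂ L} {e : ℕ} (h : Over Q P e)
    (hP : Divisorial N P) : Divisorial N Q :=
  Pool.Agent.Y172.divisorial_up h hP

/-- sections for one divisor -/
def Sec1 {F : Type} [Field F] [Algebra ℂ F] (N : ℕ) (β : Place ℂ F → ℚ) (f : F) : Prop :=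
  ∀ P : Place ℂ F, Divisorial N P → f = 0 ∨ - β P ≤ P.ord f

/-- **Comparison of the sections.** -/
theorem comp_sec {β β2 : Place ℂ L → ℚ} {β' β2' : Place ℂ K → ℚ}
    (hβ : ∀ (P : Place ℂ L) (Q : Place ℂ K) (e : ℕ), Divisorial N P → Over Q P e →
      β' Q = e * β P)
    (hβ2 : ∀ (P : Place ℂ L) (Q : Place ℂ K) (e : ℕ), Divisorial N P → Over Q P e →
      β2' Q = e * β2 P)
    (h : ∀ (j : ℕ) (c : L), 1 ≤ j → Sec1 N (fun P => j * β P) c → Sec1 N (fun P => j * β2 P) c)
    {s : K} (hs : Sec1 N β' s) : Sec1 N β2' s := by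
  intro Q hQ
  by_cases hs0 : s = 0
  · exact Or.inl hs0
  right
  have hs' : Sec N (fun _ : Fin 1 => β') (fun _ => 1) s := by
    intro Q' hQ'
    have h1 := hs Q' hQ'
    simpa using h1
  obtain ⟨k, c, hk, hc0, hc, hle⟩ := cover_sec (δ := fun _ : Fin 1 => β)
    (δ' := fun _ : Fin 1 => β') (fun _ P Q e hP h => hβ P Q e hP h) hs' hs0 Q
  have hc1 : Sec1 N (fun P => k * β P) c := by
    intro P' hP'
    have h1 := hc P' hP'
    simpa using h1
  have hc2 := h k c hk hc1
  obtain ⟨e, P, hP⟩ := exists_below (L := L) Q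
  have hdiv := div_down hP hQ
  have h1 := (hc2 P hdiv).resolve_left hc0
  beta_reduce at h1
  rw [hβ2 P Q e hdiv hP]
  rw [hP.2] at hle
  have he : (0 : ℚ) < e := by exact_mod_cast hP.1
  have hk0 : (0 : ℚ) < k := by exact_mod_cast hk
  have h2 : (e : ℚ) * P.ord c ≤ k * Q.ord s := by exact_mod_cast hle
  have h3 := mul_le_mul_of_nonneg_left h1 he.le
  have h4 : (k : ℚ) * -(e * β2 P) ≤ k * Q.ord s := by linarith
  exact le_of_mul_le_mul_left h4 hk0

/-- **Models can be pulled back.** -/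
theorem mdl_up {δ : Fin p → Place ℂ L → ℚ} {δ' : Fin p → Place ℂ K → ℚ} (hp : Pull N δ δ')
    {κ lam : Fin p → ℚ} {α k : Place ℂ L → ℚ} {α' k' : Place ℂ K → ℚ}
    (hα : ∀ (P : Place ℂ L) (Q : Place ℂ K) (e : ℕ), Over Q P e → α' Q = e * α P)
    (hk : ∀ (P : Place ℂ L) (Q : Place ℂ K) (e : ℕ), Over Q P e → k' Q = e * k P)
    (h : Mdl N δ κ lam α k) : Mdl N δ' κ lam α' k' := by
  obtain ⟨ε, hε, h⟩ := h
  refine ⟨ε, hε, fun t ht0 ht1 => ?_⟩
  obtain ⟨ha, m, hm, ν, hν, hb⟩ := h t ht0 ht1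
  refine ⟨fun m ν hν s => ?_, m, hm, ν, hν, fun Q hQ => ?_⟩
  · -- the sections
    have hj : ∀ (j : ℕ) (c : L), Sec1 N (fun P => j * ∑ i, (ν i : ℚ) * δ i P) c ↔
        Sec1 N (fun P => j * (m * (α P + t * k P))) c := by
      intro j c
      have h1 := ha (j * m) (fun i => j * ν i) (fun i => by
        push_cast
        rw [← hν i]
        ring) c
      have h2 : Sec1 N (fun P => j * ∑ i, (ν i : ℚ) * δ i P) c ↔
          Sec N δ (fun i => j * ν i) c := by
        unfold Sec1 Sec
        have h3 : ∀ P : Place ℂ L, ∑ i, ((j * ν i : ℤ) : ℚ) * δ i P =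
            j * ∑ i, (ν i : ℚ) * δ i P := by
          intro P
          rw [Finset.mul_sum]
          refine Finset.sum_congr rfl fun i _ => ?_
          push_cast
          ring
        simp only [h3]
      have h4 : Sec1 N (fun P => j * (m * (α P + t * k P))) c ↔
          ∀ P : Place ℂ L, Divisorial N P →
            c = 0 ∨ - (((j * m : ℕ) : ℚ) * (α P + t * k P)) ≤ P.ord c := by
        unfold Sec1
        have h3 : ∀ P : Place ℂ L, ((j * m : ℕ) : ℚ) * (α P + t * k P) =
            j * (m * (α P + t * k P)) := by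
          intro P
          push_cast
          ring
        simp only [h3]
      rw [h2, h4]
      exact h1
    have hβ : ∀ (P : Place ℂ L) (Q : Place ℂ K) (e : ℕ), Divisorial N P → Over Q P e →
        ∑ i, (ν i : ℚ) * δ' i Q = e * ∑ i, (ν i : ℚ) * δ i P := by
      intro P Q e hP hQ
      rw [Finset.mul_sum]
      refine Finset.sum_congr rfl fun i _ => ?_
      rw [hp i P Q e hP hQ]
      ring
    have hβ2 : ∀ (P : Place ℂ L) (Q : Place ℂ K) (e : ℕ), Divisorial N P → Over Q P e →
        (m : ℚ) * (α' Q + t * k' Q) = e * (m * (α P + t * k P)) := by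
      intro P Q e _ hQ
      rw [hα P Q e hQ, hk P Q e hQ]
      ring
    exact ⟨fun hs => comp_sec (β := fun P => ∑ i, (ν i : ℚ) * δ i P)
        (β2 := fun P => m * (α P + t * k P)) (β' := fun Q => ∑ i, (ν i : ℚ) * δ' i Q)
        (β2' := fun Q => m * (α' Q + t * k' Q)) hβ hβ2 (fun j c _ => (hj j c).1) hs,
      fun hs => comp_sec (β := fun P => m * (α P + t * k P))
        (β2 := fun P => ∑ i, (ν i : ℚ) * δ i P) (β' := fun Q => m * (α' Q + t * k' Q))
        (β2' := fun Q => ∑ i, (ν i : ℚ) * δ' i Q) hβ2 hβ (fun j c _ => (hj j c).2) hs⟩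
  · -- the base points
    obtain ⟨e, P, hP⟩ := exists_below (L := L) Q
    have hdiv := div_down hP hQ
    obtain ⟨f, hf0, hf, hle⟩ := hb P hdiv
    refine ⟨algebraMap L K f, (map_ne_zero _).2 hf0, gen_sec hp hf, ?_⟩
    rw [hP.2, hα P Q e hP, hk P Q e hP]
    have he : (0 : ℚ) < e := by exact_mod_cast hP.1
    have h3 := mul_le_mul_of_nonneg_left hle he.le
    push_cast
    linarith

end cover

section corr

variable {L K M : Type} [Field L] [Algebra ℂ L] [Field K] [Algebra ℂ K] [Field M] [Algebra ℂ M]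
  [Algebra L M] [IsScalarTower ℂ L M] [FiniteDimensional L M]
  [Algebra K M] [IsScalarTower ℂ K M] [FiniteDimensional K M]

open Classical in
/-- the pull-back of a function of the places -/
noncomputable def pb (K : Type) [Field K] [Algebra ℂ K] {M : Type} [Field M] [Algebra ℂ M]
    [Algebra K M] [IsScalarTower ℂ K M] [FiniteDimensional K M] (α : Place ℂ K → ℚ)
    (W : Place ℂ M) : ℚ :=
  ((exists_below (L := K) W).choose : ℚ) * α (exists_below (L := K) W).choose_spec.choose

theorem pb_eq (α : Place ℂ K → ℚ) (P : Place ℂ K) (W : Place ℂ M) (e : ℕ) (h : Over W P e) :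
    pb K α W = e * α P := by
  have h1 := (exists_below (L := K) W).choose_spec.choose_spec
  obtain ⟨h2, h3⟩ := over_unique h h1
  have h4 : ((exists_below (L := K) W).choose : ℚ) = e := congrArg Nat.cast h3.symm
  have h5 : α (exists_below (L := K) W).choose_spec.choose = α P := congrArg α h2.symm
  exact congrArg₂ (fun a b : ℚ => a * b) h4 h5

/-- **Termination for finite correspondences.** -/
theorem term_corr {δ : Fin p → Place ℂ L → ℚ} {δK : Fin p → Place ℂ K → ℚ}
    {δ' : Fin p → Place ℂ M → ℚ} (hp : Pull N δ δ') (hpK : Pull N δK δ')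
    {g : Fin n → Fin p → ℤ} {f : Fin n → L} (hgen : Gen N δ g f) (κ : Fin p → ℚ) :
      (∀ (lam : Fin (Fintype.card (Finset (Finset (Fin n))) + 1) → Fin p → ℚ)
        (α k : Fin (Fintype.card (Finset (Finset (Fin n))) + 1) → Place ℂ K → ℚ),
        (∀ j, Mdl N δK κ (lam j) (α j) (k j)) →
        ∃ j j' : Fin (Fintype.card (Finset (Finset (Fin n))) + 1), j < j' ∧
          ∀ P : Place ℂ K, Divisorial N P → k j P = k j' P) ∧
      ∀ (T : ℕ) (lam : ℕ → Fin p → ℚ) (α k : ℕ → Place ℂ K → ℚ),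
        (∀ j ≤ T, Mdl N δK κ (lam j) (α j) (k j)) →
        (∀ j < T, (∀ P : Place ℂ K, Divisorial N P → k (j + 1) P ≤ k j P) ∧
          ∃ P : Place ℂ K, Divisorial N P ∧ k (j + 1) P < k j P) →
        T < Fintype.card (Finset (Finset (Fin n))) := by
  obtain ⟨h1, h2⟩ := term hp hgen κ
  have hup : ∀ {lam : Fin p → ℚ} {α k : Place ℂ K → ℚ}, Mdl N δK κ lam α k →
      Mdl N δ' κ lam (pb K α) (pb K k) := fun h =>
    mdl_up hpK (fun P Q e h => pb_eq _ P Q e h) (fun P Q e h => pb_eq _ P Q e h) h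
  constructor
  · intro lam α k hk
    obtain ⟨j, j', hlt, heq⟩ := h1 lam (fun j => pb K (α j)) (fun j => pb K (k j))
      fun j => hup (hk j)
    refine ⟨j, j', hlt, fun P hP => ?_⟩
    obtain ⟨W, e, hW⟩ := exists_above (K := M) P
    have h3 := heq W (div_up hW hP)
    beta_reduce at h3
    rw [pb_eq _ P W e hW, pb_eq _ P W e hW] at h3
    have he : (e : ℚ) ≠ 0 := by
      have := hW.1
      positivity
    exact mul_left_cancel₀ he h3
  · intro T lam α k hk hst
    refine h2 T lam (fun j => pb K (α j)) (fun j => pb K (k j)) (fun j hj => hup (hk j hj))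
      fun j hj => ⟨fun W hW => ?_, ?_⟩
    · obtain ⟨e, P, hP⟩ := exists_below (L := K) W
      rw [pb_eq _ P W e hP, pb_eq _ P W e hP]
      exact mul_le_mul_of_nonneg_left ((hst j hj).1 P (div_down hP hW)) (Nat.cast_nonneg _)
    · obtain ⟨P, hP, hlt⟩ := (hst j hj).2
      obtain ⟨W, e, hW⟩ := exists_above (K := M) P
      refine ⟨W, div_up hW hP, ?_⟩
      rw [pb_eq _ P W e hW, pb_eq _ P W e hW]
      have he : (0 : ℚ) < e := by exact_mod_cast hW.1
      exact mul_lt_mul_of_pos_left hlt he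

end corr

end Pool.Agent.P8H56.FL
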