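import Pool.Agent.P8H56.FL.Main

/-!
Models of finite covers: the orders of sections are generated by the sections on the base.
-/

set_option autoImplicit false
set_option linter.overlappingInstances false
set_option linter.unusedSectionVars false
set_option maxHeartbeats 1000000

open FF Pool.Agent.W602.GT

namespace Pool.Agent.P8H56.FL

variable {p N n : ℕ}

section base

variable {L : Type} [Field L] [Algebra ℂ L]

/-- homogeneous generators of the ring of the sections of all combinations of the divisors -/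
def Gen (N : ℕ) (δ : Fin p → Place ℂ L → ℚ) (g : Fin n → Fin p → ℤ) (f : Fin n → L) : Prop :=
  (∀ b, f b ≠ 0 ∧ Sec N δ (g b) (f b)) ∧ ∀ (μ : Fin p → ℤ) (s : L), Sec N δ μ s →
    s ∈ Submodule.span ℂ {t : L | ∃ e : Fin n → ℕ, (∀ i, ∑ b, (e b : ℤ) * g b i = μ i) ∧
      t = ∏ b, f b ^ e b}

theorem ord_prod (P : Place ℂ L) {f : Fin n → L} (hf : ∀ b, f b ≠ 0) (e : Fin n → ℕ) :
    P.ord (∏ b, f b ^ e b) = ∑ b, (e b : ℤ) * P.ord (f b) := by
  classical
  have key : ∀ S : Finset (Fin n), P.ord (∏ b ∈ S, f b ^ e b) =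
      ∑ b ∈ S, (e b : ℤ) * P.ord (f b) := by
    intro S
    induction S using Finset.induction_on with
    | empty => rw [Finset.prod_empty, Finset.sum_empty, P.ord_one]
    | insert a S ha ih =>
      rw [Finset.prod_insert ha, Finset.sum_insert ha, P.ord_mul (pow_ne_zero _ (hf a))
        (Finset.prod_ne_zero_iff.2 fun b _ => pow_ne_zero _ (hf b)), P.ord_pow, ih]
  exact key Finset.univ

/-- some monomial in the generators has small order -/
theorem gen_low {δ : Fin p → Place ℂ L → ℚ} {g : Fin n → Fin p → ℤ} {f : Fin n → L}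
    (h : Gen N δ g f) {μ : Fin p → ℤ} {s : L} (hs : Sec N δ μ s) (hs0 : s ≠ 0) (P : Place ℂ L) :
    ∃ e : Fin n → ℕ, (∀ i, ∑ b, (e b : ℤ) * g b i = μ i) ∧
      ∑ b, (e b : ℤ) * P.ord (f b) ≤ P.ord s := by
  have key : ∀ s ∈ Submodule.span ℂ {t : L | ∃ e : Fin n → ℕ,
      (∀ i, ∑ b, (e b : ℤ) * g b i = μ i) ∧ t = ∏ b, f b ^ e b}, s ≠ 0 →
      ∃ e : Fin n → ℕ, (∀ i, ∑ b, (e b : ℤ) * g b i = μ i) ∧
        ∑ b, (e b : ℤ) * P.ord (f b) ≤ P.ord s := by
    intro s hs
    induction hs using Submodule.span_induction with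
    | mem x hx =>
      intro _
      obtain ⟨e, he, rfl⟩ := hx
      exact ⟨e, he, (ord_prod P (fun b => (h.1 b).1) e).ge⟩
    | zero => exact fun h0 => absurd rfl h0
    | add x y _ _ ihx ihy =>
      intro h0
      by_cases hx : x = 0
      · rw [hx, zero_add] at h0 ⊢
        exact ihy h0
      by_cases hy : y = 0
      · rw [hy, add_zero]
        exact ihx hx
      rcases min_le_iff.1 (P.ord_add hx hy h0) with h1 | h1
      · obtain ⟨e, he1, he2⟩ := ihx hx
        exact ⟨e, he1, he2.trans h1⟩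
      · obtain ⟨e, he1, he2⟩ := ihy hy
        exact ⟨e, he1, he2.trans h1⟩
    | smul a x _ ih =>
      intro h0
      have ha : a ≠ 0 := fun h1 => h0 (by rw [h1, zero_smul])
      have hx : x ≠ 0 := fun h1 => h0 (by rw [h1, smul_zero])
      obtain ⟨e, he1, he2⟩ := ih hx
      refine ⟨e, he1, he2.trans (le_of_eq ?_)⟩
      rw [Algebra.smul_def, P.ord_mul ((map_ne_zero _).2 ha) hx, P.ord_const ha, zero_add]
  exact key s (h.2 μ s hs) hs0

end base

section mid

variable {L K M : Type} [Field L] [Algebra ℂ L] [Field K] [Algebra ℂ K] [Field M] [Algebra ℂ M]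
  [Algebra L K] [Algebra K M] [Algebra L M] [IsScalarTower ℂ L K] [IsScalarTower ℂ K M]
  [IsScalarTower ℂ L M] [IsScalarTower L K M]

theorem over_mid {W : Place ℂ M} {Q : Place ℂ K} {P : Place ℂ L} {e1 e : ℕ} (h1 : Over W Q e1)
    (h : Over W P e) : ∃ e2 : ℕ, Over Q P e2 ∧ e = e1 * e2 := by
  have hkey : ∀ f : L, (e : ℤ) * P.ord f = e1 * Q.ord (algebraMap L K f) := by
    intro f
    rw [← h.2 f, ← h1.2, ← IsScalarTower.algebraMap_apply L K M]
  obtain ⟨t, -, ht⟩ := P.surj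
  have h2 := hkey t
  rw [ht, mul_one] at h2
  have he : (0 : ℤ) < e := by exact_mod_cast h.1
  have he1 : (0 : ℤ) < e1 := by exact_mod_cast h1.1
  have ha : 0 < Q.ord (algebraMap L K t) := by
    by_contra hcon
    push Not at hcon
    have := mul_nonpos_of_nonneg_of_nonpos he1.le hcon
    linarith
  obtain ⟨e2, he2⟩ := Int.eq_ofNat_of_zero_le ha.le
  rw [he2] at h2
  refine ⟨e2, ⟨?_, fun f => ?_⟩, by exact_mod_cast h2⟩
  · rw [he2] at ha
    exact_mod_cast ha
  · have h3 := hkey f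
    rw [h2] at h3
    have h4 : (e1 : ℤ) * ((e2 : ℤ) * P.ord f) = e1 * Q.ord (algebraMap L K f) := by
      rw [← h3]
      ring
    exact (mul_left_cancel₀ he1.ne' h4).symm

end mid

section cover

variable {L K : Type} [Field L] [Algebra ℂ L] [Field K] [Algebra ℂ K] [Algebra L K]
  [IsScalarTower ℂ L K] [FiniteDimensional L K]

/-- the coefficients of the pull-backs -/
def Pull (N : ℕ) (δ : Fin p → Place ℂ L → ℚ) (δ' : Fin p → Place ℂ K → ℚ) : Prop :=
  ∀ (i : Fin p) (P : Place ℂ L) (Q : Place ℂ K) (e : ℕ), Divisorial N P → Over Q P e →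
    δ' i Q = e * δ i P

/-- **The orders of the sections on the cover.** -/
theorem cover_low {δ : Fin p → Place ℂ L → ℚ} {δ' : Fin p → Place ℂ K → ℚ} (hp : Pull N δ δ')
    {g : Fin n → Fin p → ℤ} {f : Fin n → L} (hgen : Gen N δ g f) {μ : Fin p → ℤ} {η : K}
    (hη : Sec N δ' μ η) (hη0 : η ≠ 0) (Q : Place ℂ K) :
    ∃ (k : ℕ) (e : Fin n → ℕ), 1 ≤ k ∧ (∀ i, ∑ b, (e b : ℤ) * g b i = k * μ i) ∧
      ∑ b, (e b : ℤ) * Q.ord (algebraMap L K (f b)) ≤ k * Q.ord η := by
  classical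
  have hL : CharZero L := charZero_of_injective_algebraMap (algebraMap ℂ L).injective
  let Ω := AlgebraicClosure K
  let M := IntermediateField.normalClosure L K Ω
  have h1 : Algebra.IsAlgebraic L Ω := Algebra.IsAlgebraic.trans L K Ω
  have hac : IsAlgClosure L Ω := ⟨inferInstance, inferInstance⟩
  have hnor : Normal L Ω := IsAlgClosure.normal L Ω
  have hfin : FiniteDimensional L M := inferInstance
  have : Normal L M := inferInstance
  have : IsGalois L M := ⟨⟩
  have : IsScalarTower ℂ L M := inferInstance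
  have : IsScalarTower ℂ K M := by
    refine IsScalarTower.of_algebraMap_eq fun x => ?_
    rw [IsScalarTower.algebraMap_apply ℂ L K, ← IsScalarTower.algebraMap_apply L K M,
      ← IsScalarTower.algebraMap_apply ℂ L M]
  have : FiniteDimensional K M := FiniteDimensional.right L K M
  obtain ⟨W, e1, hW⟩ := exists_above (L := K) (K := M) Q
  obtain ⟨e, P, hP⟩ := exists_below (L := L) (K := M) W
  obtain ⟨e2, hQP, he⟩ := over_mid hW hP
  have hη' : algebraMap K M η ≠ 0 := (map_ne_zero _).2 hη0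
  obtain ⟨k, c, hk, hc0, hc, hle⟩ := exists_low (N := N) (δ := δ) (μ := μ) hη'
    (fun W' P' e' h' hP' => by
      obtain ⟨e1', Q', hQ'⟩ := exists_below (L := K) (K := M) W'
      obtain ⟨e2', hQP', he'⟩ := over_mid hQ' h'
      have hdiv : Divisorial N Q' := Pool.Agent.Y172.divisorial_up hQP' hP'
      have h2 := (hη Q' hdiv).resolve_left hη0
      rw [hQ'.2 η, he']
      have h3 : ∑ i, (μ i : ℚ) * δ' i Q' = e2' * ∑ i, (μ i : ℚ) * δ i P' := by
        rw [Finset.mul_sum]
        refine Finset.sum_congr rfl fun i _ => ?_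
        rw [hp i P' Q' e2' hP' hQP']
        ring
      rw [h3] at h2
      push_cast
      have h4 : (0 : ℚ) < e1' := by exact_mod_cast hQ'.1
      have h5 := mul_le_mul_of_nonneg_left h2 h4.le
      linarith) hP
  obtain ⟨b, hb1, hb2⟩ := gen_low hgen hc hc0 P
  refine ⟨k, b, hk, hb1, ?_⟩
  have he1 : (0 : ℤ) < e1 := by exact_mod_cast hW.1
  have he2 : (0 : ℤ) < e2 := by exact_mod_cast hQP.1
  have h3 : ∑ b', (b b' : ℤ) * Q.ord (algebraMap L K (f b')) =
      e2 * ∑ b', (b b' : ℤ) * P.ord (f b') := by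
    rw [Finset.mul_sum]
    refine Finset.sum_congr rfl fun b' _ => ?_
    rw [hQP.2]
    ring
  rw [h3]
  rw [hW.2, he] at hle
  push_cast at hle
  have h4 : (e1 : ℤ) * (e2 * ∑ b', (b b' : ℤ) * P.ord (f b')) ≤ e1 * (k * Q.ord η) := by
    have h5 := mul_le_mul_of_nonneg_left hb2 (mul_pos he1 he2).le
    linarith
  exact le_of_mul_le_mul_left h4 he1

/-- the pull-backs of the generators are sections -/
theorem gen_sec {δ : Fin p → Place ℂ L → ℚ} {δ' : Fin p → Place ℂ K → ℚ} (hp : Pull N δ δ')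
    {μ : Fin p → ℤ} {s : L} (hs : Sec N δ μ s) : Sec N δ' μ (algebraMap L K s) := by
  intro Q hQ
  obtain ⟨e, P, hP⟩ := exists_below (L := L) Q
  have hdiv : Divisorial N P := by
    have hL : CharZero L := charZero_of_injective_algebraMap (algebraMap ℂ L).injective
    exact Pool.Agent.Y172.divisorial_down hP hQ
  rcases hs P hdiv with h0 | h0
  · left
    rw [h0, map_zero]
  right
  rw [hP.2]
  have h3 : ∑ i, (μ i : ℚ) * δ' i Q = e * ∑ i, (μ i : ℚ) * δ i P := by
    rw [Finset.mul_sum]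
    refine Finset.sum_congr rfl fun i _ => ?_
    rw [hp i P Q e hdiv hP]
    ring
  have h4 : (0 : ℚ) < e := by exact_mod_cast hP.1
  have h5 := mul_le_mul_of_nonneg_left h0 h4.le
  rw [h3]
  push_cast
  linarith

/-- a model: `α` is the ample divisor, with the combination `lam`, and `k` the divisor of `κ` -/
def Mdl (N : ℕ) (δ : Fin p → Place ℂ K → ℚ) (κ lam : Fin p → ℚ) (α k : Place ℂ K → ℚ) : Prop :=
  ∃ ε : ℚ, 0 < ε ∧ ∀ t : ℚ, 0 ≤ t → t ≤ ε →
    (∀ (m : ℕ) (ν : Fin p → ℤ), (∀ i, (m : ℚ) * (lam i + t * κ i) = ν i) → ∀ f : K,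
      (Sec N δ ν f ↔ ∀ P : Place ℂ K, Divisorial N P →
        f = 0 ∨ - (m * (α P + t * k P)) ≤ P.ord f)) ∧
    ∃ m : ℕ, 1 ≤ m ∧ ∃ ν : Fin p → ℤ, (∀ i, (m : ℚ) * (lam i + t * κ i) = ν i) ∧
      ∀ P : Place ℂ K, Divisorial N P → ∃ f : K, f ≠ 0 ∧ Sec N δ ν f ∧
        (P.ord f : ℚ) ≤ - (m * (α P + t * k P))

theorem opt_of_mdl {δ : Fin p → Place ℂ L → ℚ} {δ' : Fin p → Place ℂ K → ℚ} (hp : Pull N δ δ')
    {g : Fin n → Fin p → ℤ} {f : Fin n → L} (hgen : Gen N δ g f)
    {κ lam : Fin p → ℚ} {α k : Place ℂ K → ℚ} (h : Mdl N δ' κ lam α k) :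
    ∃ ε : ℚ, 0 < ε ∧ ∀ P : Place ℂ K, Divisorial N P → ∀ t : ℚ, 0 ≤ t → t ≤ ε →
      Opt g (fun b => (P.ord (algebraMap L K (f b)) : ℚ)) (fun i => lam i + t * κ i)
        (-(α P + t * k P)) := by
  classical
  obtain ⟨ε, hε, h⟩ := h
  refine ⟨ε, hε, fun P hP t ht0 ht1 => ?_⟩
  obtain ⟨ha, m, hm, ν, hν, hb⟩ := h t ht0 ht1
  have hF0 : ∀ b, algebraMap L K (f b) ≠ 0 := fun b => (map_ne_zero _).2 (hgen.1 b).1
  have low : ∀ e, Rp g e (fun i => lam i + t * κ i) →
      -(α P + t * k P) ≤ ∑ b, e b * (P.ord (algebraMap L K (f b)) : ℚ) := by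
    intro e he
    obtain ⟨M, hM, e', he'⟩ := exists_den e he.1
    have hM0 : (0 : ℚ) < M := by exact_mod_cast hM
    -- the product of the generators
    have h1 : Sec N δ' (fun i => ∑ b, (e' b : ℤ) * g b i) (∏ b, algebraMap L K (f b) ^ e' b) := by
      intro Q hQ
      right
      rw [ord_prod Q hF0]
      have h2 : ∀ b, - ∑ i, (g b i : ℚ) * δ' i Q ≤ Q.ord (algebraMap L K (f b)) := fun b =>
        (gen_sec hp (hgen.1 b).2 Q hQ).resolve_left (hF0 b)
      push_cast
      calc - ∑ i, (∑ b, (e' b : ℚ) * (g b i : ℚ)) * δ' i Q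
          = ∑ b, (e' b : ℚ) * (- ∑ i, (g b i : ℚ) * δ' i Q) := by
            simp only [Finset.sum_mul, mul_neg, Finset.mul_sum, Finset.sum_neg_distrib]
            rw [Finset.sum_comm]
            congr 1
            refine Finset.sum_congr rfl fun b _ => Finset.sum_congr rfl fun i _ => by ring
        _ ≤ _ := Finset.sum_le_sum fun b _ => mul_le_mul_of_nonneg_left (h2 b) (Nat.cast_nonneg _)
    have h2 : ∀ i, (M : ℚ) * (lam i + t * κ i) = ((∑ b, (e' b : ℤ) * g b i : ℤ) : ℚ) := by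
      intro i
      have h3 := he.2 i
      beta_reduce at h3
      rw [← h3, Finset.mul_sum]
      push_cast
      refine Finset.sum_congr rfl fun b _ => ?_
      rw [← mul_assoc, he' b]
    have h3 := ((ha M _ h2 _).1 h1 P hP).resolve_left
      (Finset.prod_ne_zero_iff.2 fun b _ => pow_ne_zero _ (hF0 b))
    rw [ord_prod P hF0] at h3
    have h4 : ((∑ b, (e' b : ℤ) * P.ord (algebraMap L K (f b)) : ℤ) : ℚ) =
        M * ∑ b, e b * (P.ord (algebraMap L K (f b)) : ℚ) := by
      rw [Finset.mul_sum]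
      push_cast
      refine Finset.sum_congr rfl fun b _ => ?_
      rw [← he' b]
      ring
    rw [h4] at h3
    have h5 : (M : ℚ) * (-(α P + t * k P)) ≤
        M * ∑ b, e b * (P.ord (algebraMap L K (f b)) : ℚ) := by linarith
    exact le_of_mul_le_mul_left h5 hM0
  refine ⟨low, ?_⟩
  obtain ⟨η, hη0, hη, hle⟩ := hb P hP
  obtain ⟨k', e, hk', he1, he2⟩ := cover_low hp hgen hη hη0 P
  have hm0 : (0 : ℚ) < m := by exact_mod_cast hm
  have hk0 : (0 : ℚ) < k' := by exact_mod_cast hk'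
  have hr : Rp g (fun b => (e b : ℚ) / (k' * m)) (fun i => lam i + t * κ i) := by
    refine ⟨fun b => by positivity, fun i => ?_⟩
    have h5 : ∑ b, (e b : ℚ) / (k' * m) * g b i = (∑ b, (e b : ℚ) * g b i) / (k' * m) := by
      rw [Finset.sum_div]
      exact Finset.sum_congr rfl fun b _ => by ring
    have h6 : ∑ b, (e b : ℚ) * g b i = k' * ν i := by
      have h7 := he1 i
      have h8 : ((∑ b, (e b : ℤ) * g b i : ℤ) : ℚ) = ((k' * ν i : ℤ) : ℚ) := by rw [h7]
      push_cast at h8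
      exact h8
    rw [h5, h6, ← hν i]
    field_simp
  refine ⟨_, hr, le_antisymm ?_ (low _ hr)⟩
  have h5 : ∑ b, (e b : ℚ) / (k' * m) * (P.ord (algebraMap L K (f b)) : ℚ) =
      (∑ b, (e b : ℚ) * P.ord (algebraMap L K (f b))) / (k' * m) := by
    rw [Finset.sum_div]
    exact Finset.sum_congr rfl fun b _ => by ring
  have h6 : ∑ b, (e b : ℚ) * (P.ord (algebraMap L K (f b)) : ℚ) ≤ k' * (P.ord η : ℚ) := by
    exact_mod_cast he2
  rw [h5, div_le_iff₀ (mul_pos hk0 hm0)]
  have h7 := mul_le_mul_of_nonneg_left hle hk0.le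
  linarith

/-- **Termination.** -/
theorem term {δ : Fin p → Place ℂ L → ℚ} {δ' : Fin p → Place ℂ K → ℚ} (hp : Pull N δ δ')
    {g : Fin n → Fin p → ℤ} {f : Fin n → L} (hgen : Gen N δ g f) (κ : Fin p → ℚ) :
      (∀ (lam : Fin (Fintype.card (Finset (Finset (Fin n))) + 1) → Fin p → ℚ)
        (α k : Fin (Fintype.card (Finset (Finset (Fin n))) + 1) → Place ℂ K → ℚ),
        (∀ j, Mdl N δ' κ (lam j) (α j) (k j)) →
        ∃ j j' : Fin (Fintype.card (Finset (Finset (Fin n))) + 1), j < j' ∧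
          ∀ P : Place ℂ K, Divisorial N P → k j P = k j' P) ∧
      ∀ (T : ℕ) (lam : ℕ → Fin p → ℚ) (α k : ℕ → Place ℂ K → ℚ),
        (∀ j ≤ T, Mdl N δ' κ (lam j) (α j) (k j)) →
        (∀ j < T, (∀ P : Place ℂ K, Divisorial N P → k (j + 1) P ≤ k j P) ∧
          ∃ P : Place ℂ K, Divisorial N P ∧ k (j + 1) P < k j P) →
        T < Fintype.card (Finset (Finset (Fin n))) := by
  classical
  have hfin : ∀ (lam : Fin (Fintype.card (Finset (Finset (Fin n))) + 1) → Fin p → ℚ)
      (α k : Fin (Fintype.card (Finset (Finset (Fin n))) + 1) → Place ℂ K → ℚ),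
      (∀ j, Mdl N δ' κ (lam j) (α j) (k j)) →
      ∃ j j' : Fin (Fintype.card (Finset (Finset (Fin n))) + 1), j < j' ∧
        ∀ P : Place ℂ K, Divisorial N P → k j P = k j' P := by
    intro lam α k hk
    have key : ∀ j j', gsig g κ (lam j) = gsig g κ (lam j') →
        ∀ P : Place ℂ K, Divisorial N P → k j P = k j' P := by
      intro j j' hjj P hP
      obtain ⟨ε, hε, h1⟩ := opt_of_mdl hp hgen (hk j)
      obtain ⟨ε', hε', h1'⟩ := opt_of_mdl hp hgen (hk j')
      exact slope_eq hε hε' (h1 P hP) (h1' P hP) hjj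
    obtain ⟨j, j', hne, heq⟩ := Fintype.exists_ne_map_eq_of_card_lt (fun j => gsig g κ (lam j)) (by
      rw [Fintype.card_fin]
      exact Nat.lt_succ_self _)
    rcases lt_or_gt_of_ne hne with hlt | hlt
    · exact ⟨j, j', hlt, key j j' heq⟩
    · exact ⟨j', j, hlt, key j' j heq.symm⟩
  refine ⟨hfin, fun T lam α k hk hst => ?_⟩
  by_contra hcon
  push Not at hcon
  obtain ⟨j, j', hlt, heq⟩ := hfin (fun j => lam j) (fun j => α j) (fun j => k j) fun j => hk j (by
    have := j.2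
    omega)
  have hlt' : (j : ℕ) < j' := hlt
  have hj' : (j' : ℕ) ≤ T := by
    have := j'.2
    omega
  have hmono : ∀ a b : ℕ, a ≤ b → b ≤ T → ∀ P : Place ℂ K, Divisorial N P → k b P ≤ k a P := by
    intro a b hab
    induction b, hab using Nat.le_induction with
    | base => intro _ P _; exact le_rfl
    | succ b hab ih =>
      intro hb P hP
      exact ((hst b (by omega)).1 P hP).trans (ih (by omega) P hP)
  obtain ⟨P, hP, hs⟩ := (hst j (by omega)).2
  have h1 := hmono (j + 1) j' (by omega) hj' P hP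
  have h2 := heq P hP
  linarith

end cover

end Pool.Agent.P8H56.FL
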