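import Pool.Agent.P8H56.FL.Lin

/-!
Models descend to the base of a finite cover, and to `ℚ`-linearly equivalent divisors.
-/

set_option autoImplicit false
set_option linter.overlappingInstances false
set_option linter.unusedSectionVars false
set_option maxHeartbeats 1000000

open FF Pool.Agent.W602.GT Polynomial

namespace Pool.Agent.P8H56.FL

variable {p N n : ℕ}

section sec

variable {L K : Type} [Field L] [Algebra ℂ L] [Field K] [Algebra ℂ K]
  [Algebra L K] [IsScalarTower ℂ L K] [FiniteDimensional L K]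

/-- **The symmetric functions of a section,** with a bound for the degree. -/
theorem exists_low2 [IsGalois L K] {δ : Fin p → Place ℂ L → ℚ} {μ : Fin p → ℤ} {η : K}
    (hη0 : η ≠ 0)
    (hsec : ∀ (W : Place ℂ K) (P : Place ℂ L) (e : ℕ), Over W P e → Divisorial N P →
      - ((e : ℚ) * ∑ i, (μ i : ℚ) * δ i P) ≤ W.ord η)
    {W : Place ℂ K} {P : Place ℂ L} {e : ℕ} (h : Over W P e) :
    ∃ (k : ℕ) (c : L), 1 ≤ k ∧ k ≤ Nat.card (K ≃ₐ[L] K) ∧ c ≠ 0 ∧
      Sec N δ (fun i => k * μ i) c ∧ (e : ℤ) * P.ord c ≤ k * W.ord η := by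
  classical
  obtain ⟨Q, hQ⟩ : ∃ Q : K[X], Q = ∏ s : K ≃ₐ[L] K, (X - C (s η)) := ⟨_, rfl⟩
  obtain ⟨d, hd⟩ : ∃ d : ℕ, d = Fintype.card (K ≃ₐ[L] K) := ⟨_, rfl⟩
  have hdeg : Q.natDegree = d := by
    rw [hQ, natDegree_prod_of_monic _ _ fun s _ => monic_X_sub_C _, hd]
    simp
  have hmon : Q.Monic := by
    rw [hQ]
    exact monic_prod_of_monic _ _ fun s _ => monic_X_sub_C _
  have hroot : Q.eval η = 0 := by
    rw [hQ, eval_prod]
    refine Finset.prod_eq_zero (Finset.mem_univ (1 : K ≃ₐ[L] K)) ?_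
    simp
  -- the coefficients are in `L`
  have hfix : ∀ j, ∃ c : L, algebraMap L K c = Q.coeff j := by
    intro j
    have h1 : Q.coeff j ∈ Set.range (algebraMap L K) := by
      rw [IsGalois.mem_range_algebraMap_iff_fixed]
      intro t
      have h2 : Q.map (t : K →+* K) = Q := by
        rw [hQ, Polynomial.map_prod]
        refine Fintype.prod_equiv (Equiv.mulLeft t) _ _ fun s => ?_
        rw [Polynomial.map_sub, map_X, map_C]
        rfl
      have h3 := congrArg (fun R => coeff R j) h2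
      simp only [coeff_map] at h3
      exact h3
    exact h1
  choose c hc using hfix
  -- the relation
  have hsum : η ^ d = - ∑ j ∈ Finset.range d, Q.coeff j * η ^ j := by
    have h1 := Polynomial.eval_eq_sum_range (p := Q) η
    rw [hroot, hdeg, Finset.sum_range_succ] at h1
    have h2 : Q.coeff d = 1 := by
      rw [← hdeg]
      exact hmon
    rw [h2, one_mul] at h1
    exact (neg_eq_of_add_eq_zero_right h1.symm).symm
  have hne : ∑ j ∈ Finset.range d, Q.coeff j * η ^ j ≠ 0 := by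
    intro h0
    rw [h0, neg_zero] at hsum
    exact pow_ne_zero d hη0 hsum
  obtain ⟨j, hj, hj0, hjle⟩ := exists_le_sum W _ _ hne
  have hjd : j < d := Finset.mem_range.1 hj
  have hq0 : Q.coeff j ≠ 0 := left_ne_zero_of_mul hj0
  have hc0 : c j ≠ 0 := by
    intro h0
    apply hq0
    rw [← hc, h0, map_zero]
  refine ⟨d - j, c j, by omega, ?_, hc0, ?_, ?_⟩
  · rw [Nat.card_eq_fintype_card, ← hd]
    omega
  · -- a section
    intro P' hP'
    right
    obtain ⟨W', e', h'⟩ := exists_above (K := K) P'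
    have h1 := coeff_prod W' (r := - ((e' : ℚ) * ∑ i, (μ i : ℚ) * δ i P'))
      (fun s : K ≃ₐ[L] K => s η) Finset.univ (fun s _ => Or.inr (by
        have h2 := hsec _ P' e' (over_comp h' s) hP'
        rw [Place.comp_ord] at h2
        exact h2)) j
    rw [← hQ] at h1
    have h2 := h1.resolve_left hq0
    rw [Finset.card_univ, ← hd, ← hc j, h'.2] at h2
    have he : (0 : ℚ) < e' := by exact_mod_cast h'.1
    push_cast [Nat.cast_sub hjd.le] at h2 ⊢
    have h3 : ∑ i, ((d : ℚ) - j) * μ i * δ i P' = ((d : ℚ) - j) * ∑ i, (μ i : ℚ) * δ i P' := by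
      rw [Finset.mul_sum]
      exact Finset.sum_congr rfl fun i _ => by ring
    rw [h3]
    have h4 : (e' : ℚ) * (-(((d : ℚ) - j) * ∑ i, (μ i : ℚ) * δ i P')) ≤ e' * P'.ord (c j) := by
      linarith
    exact le_of_mul_le_mul_left h4 he
  · -- of small order
    have h1 : W.ord (∑ j ∈ Finset.range d, Q.coeff j * η ^ j) = d * W.ord η := by
      rw [← W.ord_neg, ← hsum, W.ord_pow]
    rw [h1, W.ord_mul hq0 (pow_ne_zero j hη0), W.ord_pow, ← hc j, h.2] at hjle
    push_cast [Nat.cast_sub hjd.le]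
    linarith

/-- a section on the base of small order, with a bound for the degree which depends only on the
extension -/
theorem cover_sec2 (L K : Type) [Field L] [Algebra ℂ L] [Field K] [Algebra ℂ K]
    [Algebra L K] [IsScalarTower ℂ L K] [FiniteDimensional L K] (p N : ℕ) :
    ∃ D : ℕ, ∀ (δ : Fin p → Place ℂ L → ℚ) (δ' : Fin p → Place ℂ K → ℚ), Pull N δ δ' →
    ∀ (μ : Fin p → ℤ) (η : K), Sec N δ' μ η → η ≠ 0 → ∀ Q : Place ℂ K,
    ∃ (k : ℕ) (c : L), 1 ≤ k ∧ k ≤ D ∧ c ≠ 0 ∧ Sec N δ (fun i => k * μ i) c ∧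
      Q.ord (algebraMap L K c) ≤ k * Q.ord η := by
  classical
  have hL : CharZero L := charZero_of_injective_algebraMap (algebraMap ℂ L).injective
  let Ω := AlgebraicClosure K
  let M := IntermediateField.normalClosure L K Ω
  have h1 : Algebra.IsAlgebraic L Ω := Algebra.IsAlgebraic.trans L K Ω
  have hac : IsAlgClosure L Ω := ⟨inferInstance, inferInstance⟩
  have hnor : Normal L Ω := IsAlgClosure.normal L Ω
  have hfin : FiniteDimensional L M := inferInstance
  have : Normal L M := inferInstance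
  have : IsGalois L M := ⟨⟩
  have : IsScalarTower ℂ L M := inferInstance
  have : IsScalarTower ℂ K M := by
    refine IsScalarTower.of_algebraMap_eq fun x => ?_
    rw [IsScalarTower.algebraMap_apply ℂ L K, ← IsScalarTower.algebraMap_apply L K M,
      ← IsScalarTower.algebraMap_apply ℂ L M]
  have : FiniteDimensional K M := FiniteDimensional.right L K M
  refine ⟨Nat.card (M ≃ₐ[L] M), fun δ δ' hp μ η hη hη0 Q => ?_⟩
  obtain ⟨W, e1, hW⟩ := exists_above (L := K) (K := M) Q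
  obtain ⟨e, P, hP⟩ := exists_below (L := L) (K := M) W
  obtain ⟨e2, hQP, he⟩ := over_mid hW hP
  have hη' : algebraMap K M η ≠ 0 := (_root_.map_ne_zero _).2 hη0
  obtain ⟨k, c, hk, hkD, hc0, hc, hle⟩ := exists_low2 (N := N) (δ := δ) (μ := μ) hη'
    (fun W' P' e' h' hP' => by
      obtain ⟨e1', Q', hQ'⟩ := exists_below (L := K) (K := M) W'
      obtain ⟨e2', hQP, he'⟩ := over_mid hQ' h'
      have hdiv : Divisorial N Q' := Pool.Agent.Y172.divisorial_up hQP hP'
      have h2 := (hη Q' hdiv).resolve_left hη0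
      rw [hQ'.2 η, he']
      have h3 : ∑ i, (μ i : ℚ) * δ' i Q' = e2' * ∑ i, (μ i : ℚ) * δ i P' := by
        rw [Finset.mul_sum]
        refine Finset.sum_congr rfl fun i _ => ?_
        rw [hp i P' Q' e2' hP' hQP]
        ring
      rw [h3] at h2
      push_cast
      have h4 : (0 : ℚ) < e1' := by exact_mod_cast hQ'.1
      have h5 := mul_le_mul_of_nonneg_left h2 h4.le
      linarith) hP
  refine ⟨k, c, hk, hkD, hc0, hc, ?_⟩
  have he1 : (0 : ℤ) < e1 := by exact_mod_cast hW.1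
  rw [hW.2, he] at hle
  push_cast at hle
  rw [hQP.2]
  have h4 : (e1 : ℤ) * (e2 * P.ord c) ≤ e1 * (k * Q.ord η) := by linarith
  exact le_of_mul_le_mul_left h4 he1

/-- the comparison of two places over the same place -/
theorem two_le {δ : Fin p → Place ℂ L → ℚ} {δ' : Fin p → Place ℂ K → ℚ} (hp : Pull N δ δ')
    {κ lam : Fin p → ℚ} {α' k' : Place ℂ K → ℚ} {t : ℚ}
    (ha : ∀ (m : ℕ) (ν : Fin p → ℤ), (∀ i, (m : ℚ) * (lam i + t * κ i) = ν i) → ∀ f : K,
      (Sec N δ' ν f ↔ ∀ P : Place ℂ K, Divisorial N P →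
        f = 0 ∨ - (m * (α' P + t * k' P)) ≤ P.ord f))
    (hb : ∃ m : ℕ, 1 ≤ m ∧ ∃ ν : Fin p → ℤ, (∀ i, (m : ℚ) * (lam i + t * κ i) = ν i) ∧
      ∀ P : Place ℂ K, Divisorial N P → ∃ f : K, f ≠ 0 ∧ Sec N δ' ν f ∧
        (P.ord f : ℚ) ≤ - (m * (α' P + t * k' P)))
    {P : Place ℂ L} (hP : Divisorial N P) {Q Q' : Place ℂ K} {e e' : ℕ} (hQ : Over Q P e)
    (hQ' : Over Q' P e') :
    (α' Q + t * k' Q) / e ≤ (α' Q' + t * k' Q') / e' := by
  obtain ⟨m, hm, ν, hν, hb⟩ := hb
  obtain ⟨s, hs0, hs, hle⟩ := hb Q (div_up hQ hP)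
  obtain ⟨j, c, hj, hc0, hc, hcle⟩ := cover_sec hp hs hs0 Q
  have hc0' : algebraMap L K c ≠ 0 := (_root_.map_ne_zero _).2 hc0
  have h1 := ((ha (j * m) (fun i => j * ν i) (fun i => by
    push_cast
    rw [← hν i]
    ring) _).1 (gen_sec hp hc) Q' (div_up hQ' hP)).resolve_left hc0'
  rw [hQ'.2] at h1
  rw [hQ.2] at hcle
  have hcle' : (e : ℚ) * P.ord c ≤ j * Q.ord s := by exact_mod_cast hcle
  push_cast at h1
  have he : (0 : ℚ) < e := by exact_mod_cast hQ.1
  have he' : (0 : ℚ) < e' := by exact_mod_cast hQ'.1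
  have hj0 : (0 : ℚ) < j := by exact_mod_cast hj
  have hm0 : (0 : ℚ) < m := by exact_mod_cast hm
  have h2 : (e : ℚ) * P.ord c ≤ - (j * m * (α' Q + t * k' Q)) := by
    have h3 := mul_le_mul_of_nonneg_left hle hj0.le
    linarith
  rw [div_le_div_iff₀ he he']
  have h3 : (j * m : ℚ) * ((α' Q + t * k' Q) * e') ≤ (j * m) * ((α' Q' + t * k' Q') * e) := by
    have h4 := mul_le_mul_of_nonneg_left h2 he'.le
    have h5 := mul_le_mul_of_nonneg_left h1 he.le
    linarith
  exact le_of_mul_le_mul_left h3 (mul_pos hj0 hm0)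

open Classical in
/-- the descent of a function of the places -/
noncomputable def dn (L : Type) [Field L] [Algebra ℂ L] {K : Type} [Field K] [Algebra ℂ K]
    [Algebra L K] [IsScalarTower ℂ L K] [FiniteDimensional L K] (α' : Place ℂ K → ℚ)
    (P : Place ℂ L) : ℚ :=
  α' (exists_above (K := K) P).choose / ((exists_above (K := K) P).choose_spec.choose : ℚ)

/-- **Models descend.** -/
theorem mdl_down {δ : Fin p → Place ℂ L → ℚ} {δ' : Fin p → Place ℂ K → ℚ} (hp : Pull N δ δ')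
    {κ lam : Fin p → ℚ} {α' k' : Place ℂ K → ℚ} (h : Mdl N δ' κ lam α' k') :
    Mdl N δ κ lam (dn L α') (dn L k') ∧
      ∀ (P : Place ℂ L) (Q : Place ℂ K) (e : ℕ), Divisorial N P → Over Q P e →
        α' Q = e * dn L α' P ∧ k' Q = e * dn L k' P := by
  classical
  obtain ⟨ε, hε, h⟩ := h
  -- the values at the places over a place
  have hval : ∀ (P : Place ℂ L) (Q : Place ℂ K) (e : ℕ), Divisorial N P → Over Q P e →
      α' Q = e * dn L α' P ∧ k' Q = e * dn L k' P := by
    intro P Q e hP hQ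
    obtain ⟨Q0, e0, hov, hda, hdk⟩ : ∃ (Q0 : Place ℂ K) (e0 : ℕ), Over Q0 P e0 ∧
        dn L α' P = α' Q0 / e0 ∧ dn L k' P = k' Q0 / e0 :=
      ⟨_, _, (exists_above (K := K) P).choose_spec.choose_spec, rfl, rfl⟩
    have he : (0 : ℚ) < e := by exact_mod_cast hQ.1
    have he0' : (0 : ℚ) < e0 := by exact_mod_cast hov.1
    have key : ∀ t : ℚ, 0 ≤ t → t ≤ ε →
        (α' Q + t * k' Q) / e = (α' Q0 + t * k' Q0) / e0 := by
      intro t ht0 ht1
      obtain ⟨ha, hb⟩ := h t ht0 ht1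
      exact le_antisymm (two_le hp ha hb hP hQ hov) (two_le hp ha hb hP hov hQ)
    have k0 := key 0 le_rfl hε.le
    have k1 := key ε hε.le le_rfl
    rw [zero_mul, zero_mul, add_zero, add_zero] at k0
    rw [add_div, add_div, k0] at k1
    have k2 : ε * k' Q / e = ε * k' Q0 / e0 := by linarith
    have k3 : k' Q / e = k' Q0 / e0 := by
      rw [mul_div_assoc, mul_div_assoc] at k2
      exact mul_left_cancel₀ hε.ne' k2
    rw [hda, hdk, ← k0, ← k3]
    constructor <;> field_simp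
  refine ⟨?_, hval⟩
  obtain ⟨D, hD⟩ := cover_sec2 L K p N
  refine ⟨ε, hε, fun t ht0 ht1 => ?_⟩
  obtain ⟨ha, m, hm, ν, hν, hb⟩ := h t ht0 ht1
  refine ⟨fun m ν hν s => ⟨fun hs P hP => ?_, fun hs P hP => ?_⟩, D.factorial * m, ?_,
    fun i => D.factorial * ν i, fun i => ?_, fun P hP => ?_⟩
  · -- sections satisfy the bound
    by_cases hs0 : s = 0
    · exact Or.inl hs0
    right
    obtain ⟨Q, e, hQ⟩ := exists_above (K := K) P
    have h1 := ((ha m ν hν _).1 (gen_sec hp hs) Q (div_up hQ hP)).resolve_left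
      ((_root_.map_ne_zero _).2 hs0)
    obtain ⟨v1, v2⟩ := hval P Q e hP hQ
    rw [hQ.2, v1, v2] at h1
    push_cast at h1
    have he : (0 : ℚ) < e := by exact_mod_cast hQ.1
    have h2 : (e : ℚ) * -(m * (dn L α' P + t * dn L k' P)) ≤ e * P.ord s := by linarith
    exact le_of_mul_le_mul_left h2 he
  · -- the functions which satisfy the bound are sections
    by_cases hs0 : s = 0
    · exact Or.inl hs0
    right
    have h1 : Sec N δ' ν (algebraMap L K s) := by
      refine (ha m ν hν _).2 fun Q hQ => ?_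
      right
      obtain ⟨e, P', hP'⟩ := exists_below (L := L) Q
      have hdiv := div_down hP' hQ
      obtain ⟨v1, v2⟩ := hval P' Q e hdiv hP'
      have h2 := (hs P' hdiv).resolve_left hs0
      rw [hP'.2, v1, v2]
      push_cast
      have he : (0 : ℚ) < e := by exact_mod_cast hP'.1
      have h3 := mul_le_mul_of_nonneg_left h2 he.le
      linarith
    obtain ⟨Q, e, hQ⟩ := exists_above (K := K) P
    have h2 := (h1 Q (div_up hQ hP)).resolve_left ((_root_.map_ne_zero _).2 hs0)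
    rw [hQ.2] at h2
    have h3 : ∑ i, (ν i : ℚ) * δ' i Q = e * ∑ i, (ν i : ℚ) * δ i P := by
      rw [Finset.mul_sum]
      refine Finset.sum_congr rfl fun i _ => ?_
      rw [hp i P Q e hP hQ]
      ring
    rw [h3] at h2
    push_cast at h2
    have he : (0 : ℚ) < e := by exact_mod_cast hQ.1
    have h4 : (e : ℚ) * -(∑ i, (ν i : ℚ) * δ i P) ≤ e * P.ord s := by linarith
    exact le_of_mul_le_mul_left h4 he
  · exact Nat.one_le_iff_ne_zero.2 (Nat.mul_ne_zero (Nat.factorial_ne_zero D) (by omega))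
  · push_cast
    rw [← hν i]
    ring
  · -- no base points
    obtain ⟨Q, e, hQ⟩ := exists_above (K := K) P
    obtain ⟨s, hs0, hs, hle⟩ := hb Q (div_up hQ hP)
    obtain ⟨j, c, hj, hjD, hc0, hc, hcle⟩ := hD δ δ' hp ν s hs hs0 Q
    obtain ⟨a, haj⟩ : j ∣ D.factorial := Nat.dvd_factorial hj hjD
    refine ⟨c ^ a, pow_ne_zero _ hc0, fun P' hP' => ?_, ?_⟩
    · right
      have h1 := (hc P' hP').resolve_left hc0
      rw [P'.ord_pow]
      have h2 : ∑ i, (((D.factorial : ℤ) * ν i : ℤ) : ℚ) * δ i P' =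
          a * ∑ i, (((j : ℤ) * ν i : ℤ) : ℚ) * δ i P' := by
        rw [Finset.mul_sum]
        refine Finset.sum_congr rfl fun i _ => ?_
        rw [haj]
        push_cast
        ring
      rw [h2]
      have h3 := mul_le_mul_of_nonneg_left h1 (Nat.cast_nonneg (α := ℚ) a)
      push_cast at h3 ⊢
      linarith
    · rw [P.ord_pow]
      rw [hQ.2] at hcle
      obtain ⟨v1, v2⟩ := hval P Q e hP hQ
      rw [v1, v2] at hle
      have he : (0 : ℚ) < e := by exact_mod_cast hQ.1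
      have h1 : (e : ℚ) * P.ord c ≤ j * Q.ord s := by exact_mod_cast hcle
      have hj0 : (0 : ℚ) < j := by exact_mod_cast hj
      have h2 := mul_le_mul_of_nonneg_left hle hj0.le
      have h3 : (e : ℚ) * P.ord c ≤ e * -(j * (m * (dn L α' P + t * dn L k' P))) := by linarith
      have h4 := le_of_mul_le_mul_left h3 he
      have h5 := mul_le_mul_of_nonneg_left h4 (Nat.cast_nonneg (α := ℚ) a)
      rw [haj]
      push_cast
      linarith

end sec

section twist

variable {K : Type} [Field K] [Algebra ℂ K]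

/-- **Models of `ℚ`-linearly equivalent divisors.** -/
theorem mdl_twist {δ1 δ2 : Fin p → Place ℂ K → ℚ} {q : ℕ} (hq : 1 ≤ q) {h : Fin p → K}
    (hlin : Lin N q h δ1 δ2) {κ lam : Fin p → ℚ} {α k : Place ℂ K → ℚ}
    (hm : Mdl N δ1 κ lam α k) :
    Mdl N δ2 κ lam (fun P => α P + ∑ i, lam i * ((P.ord (h i) : ℚ) / q))
      (fun P => k P + ∑ i, κ i * ((P.ord (h i) : ℚ) / q)) := by
  classical
  have hq0 : (0 : ℚ) < q := by exact_mod_cast hq
  obtain ⟨ε, hε, hm⟩ := hm
  refine ⟨ε, hε, fun t ht0 ht1 => ?_⟩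
  obtain ⟨ha, m, hm, ν, hν, hb⟩ := hm t ht0 ht1
  have hsum : ∀ (P : Place ℂ K), (α P + ∑ i, lam i * ((P.ord (h i) : ℚ) / q)) +
      t * (k P + ∑ i, κ i * ((P.ord (h i) : ℚ) / q)) =
      (α P + t * k P) + ∑ i, (lam i + t * κ i) * ((P.ord (h i) : ℚ) / q) := by
    intro P
    have h1 : ∑ i, (lam i + t * κ i) * ((P.ord (h i) : ℚ) / q) =
        ∑ i, lam i * ((P.ord (h i) : ℚ) / q) + t * ∑ i, κ i * ((P.ord (h i) : ℚ) / q) := by
      rw [Finset.mul_sum, ← Finset.sum_add_distrib]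
      exact Finset.sum_congr rfl fun i _ => by ring
    rw [h1]
    ring
  have hmν : ∀ (m : ℕ) (ν : Fin p → ℤ), (∀ i, (m : ℚ) * (lam i + t * κ i) = ν i) →
      ∀ P : Place ℂ K, q * ((m : ℚ) * ∑ i, (lam i + t * κ i) * ((P.ord (h i) : ℚ) / q)) =
        ∑ i, (ν i : ℚ) * P.ord (h i) := by
    intro m ν hν P
    rw [Finset.mul_sum, Finset.mul_sum]
    refine Finset.sum_congr rfl fun i _ => ?_
    rw [← hν i]
    field_simp
  have hδ : ∀ (ν : Fin p → ℤ) (P : Place ℂ K), Divisorial N P →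
      q * ∑ i, (ν i : ℚ) * δ2 i P = q * ∑ i, (ν i : ℚ) * δ1 i P +
        ∑ i, (ν i : ℚ) * P.ord (h i) := by
    intro ν P hP
    rw [Finset.mul_sum, Finset.mul_sum, ← Finset.sum_add_distrib]
    refine Finset.sum_congr rfl fun i _ => ?_
    rw [hlin.2 i P hP]
    field_simp
  refine ⟨fun m ν hν f => ?_, q * m, ?_, fun i => q * ν i, fun i => ?_, fun P hP => ?_⟩
  · by_cases hf0 : f = 0
    · exact ⟨fun _ _ _ => Or.inl hf0, fun _ _ _ => Or.inl hf0⟩
    obtain ⟨f1, hf1⟩ : ∃ f1 : K, f1 = f ^ q * ∏ i, h i ^ ν i := ⟨_, rfl⟩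
    have hf10 : f1 ≠ 0 := by
      rw [hf1]
      exact mul_ne_zero (pow_ne_zero _ hf0)
        (Finset.prod_ne_zero_iff.2 fun i _ => zpow_ne_zero _ (hlin.1 i))
    have ho : ∀ Q : Place ℂ K, (Q.ord f1 : ℚ) = q * Q.ord f + ∑ i, (ν i : ℚ) * Q.ord (h i) := by
      intro Q
      rw [hf1, Q.ord_mul (pow_ne_zero _ hf0) (Finset.prod_ne_zero_iff.2 fun i _ =>
        zpow_ne_zero _ (hlin.1 i)), Q.ord_pow, ord_zprod Q hlin.1]
      push_cast
      rfl
    have h1 := ha (q * m) (fun i => q * ν i) (fun i => by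
      push_cast
      rw [← hν i]
      ring) f1
    have h2 : Sec N δ1 (fun i => q * ν i) f1 ↔ Sec N δ2 ν f := by
      unfold Sec
      refine forall_congr' fun P => forall_congr' fun hP => ?_
      rw [or_iff_right hf10, or_iff_right hf0, ho P]
      have h3 : ∑ i, (((q : ℤ) * ν i : ℤ) : ℚ) * δ1 i P = q * ∑ i, (ν i : ℚ) * δ1 i P := by
        rw [Finset.mul_sum]
        refine Finset.sum_congr rfl fun i _ => ?_
        push_cast
        ring
      rw [h3]
      have h4 := hδ ν P hP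
      constructor
      · intro h5
        have h6 : (q : ℚ) * -(∑ i, (ν i : ℚ) * δ2 i P) ≤ q * P.ord f := by linarith
        exact le_of_mul_le_mul_left h6 hq0
      · intro h5
        have h6 := mul_le_mul_of_nonneg_left h5 hq0.le
        linarith
    rw [← h2, h1]
    refine forall_congr' fun P => forall_congr' fun hP => ?_
    rw [or_iff_right hf10, or_iff_right hf0, ho P, hsum P]
    have h4 := hmν m ν hν P
    push_cast
    constructor
    · intro h5
      have h6 : (q : ℚ) * -(m * ((α P + t * k P) +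
          ∑ i, (lam i + t * κ i) * ((P.ord (h i) : ℚ) / q))) ≤ q * P.ord f := by linarith
      exact le_of_mul_le_mul_left h6 hq0
    · intro h5
      have h6 := mul_le_mul_of_nonneg_left h5 hq0.le
      linarith
  · exact Nat.one_le_iff_ne_zero.2 (Nat.mul_ne_zero (by omega) (by omega))
  · push_cast
    rw [← hν i]
    ring
  · obtain ⟨f, hf0, hf, hle⟩ := hb P hP
    obtain ⟨f1, hf1⟩ : ∃ f1 : K, f1 = f ^ q * ∏ i, h i ^ (- ν i) := ⟨_, rfl⟩
    have hf10 : f1 ≠ 0 := by
      rw [hf1]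
      exact mul_ne_zero (pow_ne_zero _ hf0)
        (Finset.prod_ne_zero_iff.2 fun i _ => zpow_ne_zero _ (hlin.1 i))
    have ho : ∀ Q : Place ℂ K, (Q.ord f1 : ℚ) = q * Q.ord f - ∑ i, (ν i : ℚ) * Q.ord (h i) := by
      intro Q
      rw [hf1, Q.ord_mul (pow_ne_zero _ hf0) (Finset.prod_ne_zero_iff.2 fun i _ =>
        zpow_ne_zero _ (hlin.1 i)), Q.ord_pow, ord_zprod Q hlin.1]
      push_cast
      simp only [neg_mul, Finset.sum_neg_distrib]
      ring
    refine ⟨f1, hf10, fun Q hQ => ?_, ?_⟩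
    · right
      rw [ho Q]
      have h1 := (hf Q hQ).resolve_left hf0
      have h3 : ∑ i, (((q : ℤ) * ν i : ℤ) : ℚ) * δ2 i Q = q * ∑ i, (ν i : ℚ) * δ2 i Q := by
        rw [Finset.mul_sum]
        refine Finset.sum_congr rfl fun i _ => ?_
        push_cast
        ring
      rw [h3, hδ ν Q hQ]
      have h4 := mul_le_mul_of_nonneg_left h1 hq0.le
      linarith
    · rw [ho P, hsum P]
      have h4 := hmν m ν hν P
      have h5 := mul_le_mul_of_nonneg_left hle hq0.le
      push_cast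
      linarith

theorem Lin.symm {δ1 δ2 : Fin p → Place ℂ K → ℚ} {q : ℕ} {h : Fin p → K}
    (hlin : Lin N q h δ1 δ2) : Lin N q (fun i => (h i)⁻¹) δ2 δ1 := by
  refine ⟨fun i => inv_ne_zero (hlin.1 i), fun i P hP => ?_⟩
  rw [hlin.2 i P hP, P.ord_inv]
  push_cast
  ring

end twist

end Pool.Agent.P8H56.FL
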