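import Pool.Agent.P8H56.FL.Cor

/-!
Models for divisors which are `ℚ`-linearly equivalent to pull-backs.
-/

set_option autoImplicit false
set_option linter.overlappingInstances false
set_option linter.unusedSectionVars false
set_option maxHeartbeats 1000000

open FF Pool.Agent.W602.GT

namespace Pool.Agent.P8H56.FL

variable {p N n : ℕ}

section cover

variable {L K : Type} [Field L] [Algebra ℂ L] [Field K] [Algebra ℂ K] [Algebra L K]
  [IsScalarTower ℂ L K] [FiniteDimensional L K]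

theorem ord_zprod (P : Place ℂ K) {h : Fin p → K} (hh : ∀ i, h i ≠ 0) (e : Fin p → ℤ) :
    P.ord (∏ i, h i ^ e i) = ∑ i, e i * P.ord (h i) := by
  classical
  have key : ∀ S : Finset (Fin p), P.ord (∏ b ∈ S, h b ^ e b) =
      ∑ b ∈ S, e b * P.ord (h b) := by
    intro S
    induction S using Finset.induction_on with
    | empty => rw [Finset.prod_empty, Finset.sum_empty, P.ord_one]
    | insert a S ha ih =>
      rw [Finset.prod_insert ha, Finset.sum_insert ha, P.ord_mul (zpow_ne_zero _ (hh a))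
        (Finset.prod_ne_zero_iff.2 fun b _ => zpow_ne_zero _ (hh b)), P.ord_zpow, ih]
  exact key Finset.univ

/-- the divisors are `ℚ`-linearly equivalent -/
def Lin (N q : ℕ) (h : Fin p → K) (δ' δ2 : Fin p → Place ℂ K → ℚ) : Prop :=
  (∀ i, h i ≠ 0) ∧ ∀ (i : Fin p) (P : Place ℂ K), Divisorial N P →
    δ2 i P = δ' i P + (P.ord (h i) : ℚ) / q

theorem opt2 {δ : Fin p → Place ℂ L → ℚ} {δ' δ2 : Fin p → Place ℂ K → ℚ} (hp : Pull N δ δ')
    {g : Fin n → Fin p → ℤ} {f : Fin n → L} (hgen : Gen N δ g f) {q : ℕ} (hq : 1 ≤ q)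
    {h : Fin p → K} (hlin : Lin N q h δ' δ2)
    {κ lam : Fin p → ℚ} {α k : Place ℂ K → ℚ} (hmd : Mdl N δ2 κ lam α k) :
    ∃ ε : ℚ, 0 < ε ∧ ∀ P : Place ℂ K, Divisorial N P → ∀ t : ℚ, 0 ≤ t → t ≤ ε →
      Opt g (fun b => (P.ord (algebraMap L K (f b)) : ℚ) -
        ∑ i, (g b i : ℚ) * ((P.ord (h i) : ℚ) / q)) (fun i => lam i + t * κ i)
        (-(α P + t * k P)) := by
  classical
  obtain ⟨ε, hε, hmd⟩ := hmd
  refine ⟨ε, hε, fun P hP t ht0 ht1 => ?_⟩
  obtain ⟨ha, m, hm, ν, hν, hb⟩ := hmd t ht0 ht1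
  have hF0 : ∀ b, algebraMap L K (f b) ≠ 0 := fun b => (map_ne_zero _).2 (hgen.1 b).1
  have hq0 : (0 : ℚ) < q := by exact_mod_cast hq
  have low : ∀ e, Rp g e (fun i => lam i + t * κ i) →
      -(α P + t * k P) ≤ ∑ b, e b * ((P.ord (algebraMap L K (f b)) : ℚ) -
        ∑ i, (g b i : ℚ) * ((P.ord (h i) : ℚ) / q)) := by
    intro e he
    obtain ⟨M, hM, e1, he1⟩ := exists_den e he.1
    have hM0 : (0 : ℚ) < M := by exact_mod_cast hM
    have hqM : (0 : ℚ) < q * M := mul_pos hq0 hM0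
    -- the product of the generators, of degree `q * M * μ`
    obtain ⟨ν1, hν1⟩ : ∃ ν1 : Fin p → ℤ, ν1 = fun i => ∑ b, (e1 b : ℤ) * g b i := ⟨_, rfl⟩
    obtain ⟨s, hs⟩ : ∃ s : K, s = (∏ b, algebraMap L K (f b) ^ (q * e1 b)) *
      ∏ i, h i ^ (- ν1 i) := ⟨_, rfl⟩
    have hs0 : s ≠ 0 := by
      rw [hs]
      exact mul_ne_zero (Finset.prod_ne_zero_iff.2 fun b _ => pow_ne_zero _ (hF0 b))
        (Finset.prod_ne_zero_iff.2 fun i _ => zpow_ne_zero _ (hlin.1 i))
    have hso : ∀ Q : Place ℂ K, (Q.ord s : ℚ) = q * ∑ b, (e1 b : ℚ) *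
        ((Q.ord (algebraMap L K (f b)) : ℚ) - ∑ i, (g b i : ℚ) * ((Q.ord (h i) : ℚ) / q)) := by
      intro Q
      rw [hs, Q.ord_mul (Finset.prod_ne_zero_iff.2 fun b _ => pow_ne_zero _ (hF0 b))
        (Finset.prod_ne_zero_iff.2 fun i _ => zpow_ne_zero _ (hlin.1 i)), ord_prod Q hF0,
        ord_zprod Q hlin.1, hν1]
      push_cast
      simp only [mul_sub, Finset.sum_sub_distrib, Finset.mul_sum, neg_mul,
        Finset.sum_neg_distrib, Finset.sum_mul]
      rw [← sub_eq_add_neg, Finset.sum_comm]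
      congr 1
      · exact Finset.sum_congr rfl fun b _ => by ring
      · refine Finset.sum_congr rfl fun b _ => Finset.sum_congr rfl fun i _ => ?_
        field_simp
    have h1 : Sec N δ2 (fun i => q * ν1 i) s := by
      intro Q hQ
      right
      rw [hso Q]
      have h2 : ∀ b, - ∑ i, (g b i : ℚ) * δ' i Q ≤ Q.ord (algebraMap L K (f b)) := fun b =>
        (gen_sec hp (hgen.1 b).2 Q hQ).resolve_left (hF0 b)
      have h3 : - ∑ i, (((q : ℤ) * ν1 i : ℤ) : ℚ) * δ2 i Q = q * ∑ b, (e1 b : ℚ) *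
          ((- ∑ i, (g b i : ℚ) * δ' i Q) - ∑ i, (g b i : ℚ) * ((Q.ord (h i) : ℚ) / q)) := by
        have h4 : ∀ b, (- ∑ i, (g b i : ℚ) * δ' i Q) -
            ∑ i, (g b i : ℚ) * ((Q.ord (h i) : ℚ) / q) = - ∑ i, (g b i : ℚ) * δ2 i Q := by
          intro b
          rw [← neg_add', ← Finset.sum_add_distrib]
          congr 1
          refine Finset.sum_congr rfl fun i _ => ?_
          rw [hlin.2 i Q hQ]
          ring
        simp only [h4]
        rw [hν1]
        push_cast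
        simp only [Finset.mul_sum, Finset.sum_mul, mul_neg, Finset.sum_neg_distrib]
        rw [Finset.sum_comm]
        congr 1
        exact Finset.sum_congr rfl fun b _ => Finset.sum_congr rfl fun i _ => by ring
      rw [h3]
      refine mul_le_mul_of_nonneg_left (Finset.sum_le_sum fun b _ =>
        mul_le_mul_of_nonneg_left ?_ (Nat.cast_nonneg _)) hq0.le
      linarith [h2 b]
    have h2 : ∀ i, ((q * M : ℕ) : ℚ) * (lam i + t * κ i) = (((q : ℤ) * ν1 i : ℤ) : ℚ) := by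
      intro i
      have h3 := he.2 i
      beta_reduce at h3
      rw [← h3, hν1, Finset.mul_sum]
      push_cast
      rw [Finset.mul_sum]
      refine Finset.sum_congr rfl fun b _ => ?_
      rw [← he1 b]
      ring
    have h3 := ((ha (q * M) _ h2 _).1 h1 P hP).resolve_left hs0
    rw [hso P] at h3
    have h4 : (q : ℚ) * ∑ b, (e1 b : ℚ) * ((P.ord (algebraMap L K (f b)) : ℚ) -
        ∑ i, (g b i : ℚ) * ((P.ord (h i) : ℚ) / q)) = (q * M) * ∑ b, e b *
        ((P.ord (algebraMap L K (f b)) : ℚ) -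
        ∑ i, (g b i : ℚ) * ((P.ord (h i) : ℚ) / q)) := by
      rw [mul_assoc, Finset.mul_sum (s := Finset.univ) (a := (M : ℚ))]
      congr 1
      refine Finset.sum_congr rfl fun b _ => ?_
      rw [← he1 b]
      ring
    rw [h4] at h3
    push_cast at h3
    have h5 : (q * M : ℚ) * (-(α P + t * k P)) ≤ (q * M) * ∑ b, e b *
        ((P.ord (algebraMap L K (f b)) : ℚ) -
        ∑ i, (g b i : ℚ) * ((P.ord (h i) : ℚ) / q)) := by linarith
    exact le_of_mul_le_mul_left h5 hqM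
  refine ⟨low, ?_⟩
  obtain ⟨η, hη0, hη, hle⟩ := hb P hP
  obtain ⟨η1, hη1⟩ : ∃ η1 : K, η1 = η ^ q * ∏ i, h i ^ ν i := ⟨_, rfl⟩
  have hη10 : η1 ≠ 0 := by
    rw [hη1]
    exact mul_ne_zero (pow_ne_zero _ hη0)
      (Finset.prod_ne_zero_iff.2 fun i _ => zpow_ne_zero _ (hlin.1 i))
  have hη1o : ∀ Q : Place ℂ K, Q.ord η1 = q * Q.ord η + ∑ i, ν i * Q.ord (h i) := by
    intro Q
    rw [hη1, Q.ord_mul (pow_ne_zero _ hη0) (Finset.prod_ne_zero_iff.2 fun i _ =>
      zpow_ne_zero _ (hlin.1 i)), Q.ord_pow, ord_zprod Q hlin.1]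
  have hη1s : Sec N δ' (fun i => q * ν i) η1 := by
    intro Q hQ
    right
    rw [hη1o Q]
    have h1 := (hη Q hQ).resolve_left hη0
    have h2 : ∑ i, (((q : ℤ) * ν i : ℤ) : ℚ) * δ' i Q =
        q * (∑ i, (ν i : ℚ) * δ2 i Q) - ∑ i, (ν i : ℚ) * Q.ord (h i) := by
      rw [Finset.mul_sum, ← Finset.sum_sub_distrib]
      refine Finset.sum_congr rfl fun i _ => ?_
      rw [hlin.2 i Q hQ]
      push_cast
      field_simp
      ring
    rw [h2]
    push_cast
    have h3 := mul_le_mul_of_nonneg_left h1 hq0.le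
    linarith
  obtain ⟨k', e, hk', he1, he2⟩ := cover_low hp hgen hη1s hη10 P
  have hm0 : (0 : ℚ) < m := by exact_mod_cast hm
  have hk0 : (0 : ℚ) < k' := by exact_mod_cast hk'
  have hd0 : (0 : ℚ) < k' * q * m := by positivity
  have he1' : ∀ i, ∑ b, (e b : ℚ) * (g b i : ℚ) = k' * q * ν i := by
    intro i
    have h7 := he1 i
    have h8 : ((∑ b, (e b : ℤ) * g b i : ℤ) : ℚ) = ((k' * (q * ν i) : ℤ) : ℚ) := by rw [h7]
    push_cast at h8
    rw [h8]
    ring
  have hr : Rp g (fun b => (e b : ℚ) / (k' * q * m)) (fun i => lam i + t * κ i) := by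
    refine ⟨fun b => by positivity, fun i => ?_⟩
    have h5 : ∑ b, (e b : ℚ) / (k' * q * m) * g b i =
        (∑ b, (e b : ℚ) * g b i) / (k' * q * m) := by
      rw [Finset.sum_div]
      exact Finset.sum_congr rfl fun b _ => by ring
    rw [h5, he1' i, ← hν i]
    field_simp
  refine ⟨_, hr, le_antisymm ?_ (low _ hr)⟩
  have h5 : ∑ b, (e b : ℚ) / (k' * q * m) * ((P.ord (algebraMap L K (f b)) : ℚ) -
      ∑ i, (g b i : ℚ) * ((P.ord (h i) : ℚ) / q)) =
      (∑ b, (e b : ℚ) * P.ord (algebraMap L K (f b)) -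
        ∑ i, (∑ b, (e b : ℚ) * (g b i : ℚ)) * ((P.ord (h i) : ℚ) / q)) / (k' * q * m) := by
    have h9 : ∑ i, (∑ b, (e b : ℚ) * (g b i : ℚ)) * ((P.ord (h i) : ℚ) / q) =
        ∑ b, (e b : ℚ) * ∑ i, (g b i : ℚ) * ((P.ord (h i) : ℚ) / q) := by
      simp only [Finset.sum_mul, Finset.mul_sum]
      rw [Finset.sum_comm]
      exact Finset.sum_congr rfl fun b _ => Finset.sum_congr rfl fun i _ => by ring
    rw [h9, ← Finset.sum_sub_distrib, Finset.sum_div]
    exact Finset.sum_congr rfl fun b _ => by ring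
  have h6 : ∑ b, (e b : ℚ) * (P.ord (algebraMap L K (f b)) : ℚ) ≤ k' * (P.ord η1 : ℚ) := by
    exact_mod_cast he2
  have h7 : ∑ i, (∑ b, (e b : ℚ) * (g b i : ℚ)) * ((P.ord (h i) : ℚ) / q) =
      k' * ∑ i, (ν i : ℚ) * P.ord (h i) := by
    rw [Finset.mul_sum]
    refine Finset.sum_congr rfl fun i _ => ?_
    rw [he1' i]
    field_simp
  rw [h5, h7, div_le_iff₀ hd0]
  rw [hη1o P] at h6
  push_cast at h6
  have h8 := mul_le_mul_of_nonneg_left hle (mul_pos hk0 hq0).le
  linarith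

/-- **Termination.** -/
theorem term2 {δ : Fin p → Place ℂ L → ℚ} {δ' δ2 : Fin p → Place ℂ K → ℚ} (hp : Pull N δ δ')
    {g : Fin n → Fin p → ℤ} {f : Fin n → L} (hgen : Gen N δ g f) {q : ℕ} (hq : 1 ≤ q)
    {h : Fin p → K} (hlin : Lin N q h δ' δ2) (κ : Fin p → ℚ) :
      (∀ (lam : Fin (Fintype.card (Finset (Finset (Fin n))) + 1) → Fin p → ℚ)
        (α k : Fin (Fintype.card (Finset (Finset (Fin n))) + 1) → Place ℂ K → ℚ),
        (∀ j, Mdl N δ2 κ (lam j) (α j) (k j)) →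
        ∃ j j' : Fin (Fintype.card (Finset (Finset (Fin n))) + 1), j < j' ∧
          ∀ P : Place ℂ K, Divisorial N P → k j P = k j' P) ∧
      ∀ (T : ℕ) (lam : ℕ → Fin p → ℚ) (α k : ℕ → Place ℂ K → ℚ),
        (∀ j ≤ T, Mdl N δ2 κ (lam j) (α j) (k j)) →
        (∀ j < T, (∀ P : Place ℂ K, Divisorial N P → k (j + 1) P ≤ k j P) ∧
          ∃ P : Place ℂ K, Divisorial N P ∧ k (j + 1) P < k j P) →
        T < Fintype.card (Finset (Finset (Fin n))) := by
  classical
  have hfin : ∀ (lam : Fin (Fintype.card (Finset (Finset (Fin n))) + 1) → Fin p → ℚ)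
      (α k : Fin (Fintype.card (Finset (Finset (Fin n))) + 1) → Place ℂ K → ℚ),
      (∀ j, Mdl N δ2 κ (lam j) (α j) (k j)) →
      ∃ j j' : Fin (Fintype.card (Finset (Finset (Fin n))) + 1), j < j' ∧
        ∀ P : Place ℂ K, Divisorial N P → k j P = k j' P := by
    intro lam α k hk
    have key : ∀ j j', gsig g κ (lam j) = gsig g κ (lam j') →
        ∀ P : Place ℂ K, Divisorial N P → k j P = k j' P := by
      intro j j' hjj P hP
      obtain ⟨ε, hε, h1⟩ := opt2 hp hgen hq hlin (hk j)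
      obtain ⟨ε', hε', h1'⟩ := opt2 hp hgen hq hlin (hk j')
      exact slope_eq hε hε' (h1 P hP) (h1' P hP) hjj
    obtain ⟨j, j', hne, heq⟩ := Fintype.exists_ne_map_eq_of_card_lt (fun j => gsig g κ (lam j)) (by
      rw [Fintype.card_fin]
      exact Nat.lt_succ_self _)
    rcases lt_or_gt_of_ne hne with hlt | hlt
    · exact ⟨j, j', hlt, key j j' heq⟩
    · exact ⟨j', j, hlt, key j' j heq.symm⟩
  refine ⟨hfin, fun T lam α k hk hst => ?_⟩
  by_contra hcon
  push Not at hcon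
  obtain ⟨j, j', hlt, heq⟩ := hfin (fun j => lam j) (fun j => α j) (fun j => k j) fun j => hk j (by
    have := j.2
    omega)
  have hlt' : (j : ℕ) < j' := hlt
  have hj' : (j' : ℕ) ≤ T := by
    have := j'.2
    omega
  have hmono : ∀ a b : ℕ, a ≤ b → b ≤ T → ∀ P : Place ℂ K, Divisorial N P → k b P ≤ k a P := by
    intro a b hab
    induction b, hab using Nat.le_induction with
    | base => intro _ P _; exact le_rfl
    | succ b hab ih =>
      intro hb P hP
      exact ((hst b (by omega)).1 P hP).trans (ih (by omega) P hP)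
  obtain ⟨P, hP, hs⟩ := (hst j (by omega)).2
  have h1 := hmono (j + 1) j' (by omega) hj' P hP
  have h2 := heq P hP
  linarith

end cover

section corr

variable {L K M : Type} [Field L] [Algebra ℂ L] [Field K] [Algebra ℂ K] [Field M] [Algebra ℂ M]
  [Algebra L M] [IsScalarTower ℂ L M] [FiniteDimensional L M]
  [Algebra K M] [IsScalarTower ℂ K M] [FiniteDimensional K M]

/-- **Termination for finite correspondences.** -/
theorem term_corr2 {δ : Fin p → Place ℂ L → ℚ} {δK : Fin p → Place ℂ K → ℚ}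
    {δ' δ2 : Fin p → Place ℂ M → ℚ} (hp : Pull N δ δ') (hpK : Pull N δK δ2) {q : ℕ}
    (hq : 1 ≤ q) {h : Fin p → M} (hlin : Lin N q h δ' δ2)
    {g : Fin n → Fin p → ℤ} {f : Fin n → L} (hgen : Gen N δ g f) (κ : Fin p → ℚ) :
      (∀ (lam : Fin (Fintype.card (Finset (Finset (Fin n))) + 1) → Fin p → ℚ)
        (α k : Fin (Fintype.card (Finset (Finset (Fin n))) + 1) → Place ℂ K → ℚ),
        (∀ j, Mdl N δK κ (lam j) (α j) (k j)) →
        ∃ j j' : Fin (Fintype.card (Finset (Finset (Fin n))) + 1), j < j' ∧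
          ∀ P : Place ℂ K, Divisorial N P → k j P = k j' P) ∧
      ∀ (T : ℕ) (lam : ℕ → Fin p → ℚ) (α k : ℕ → Place ℂ K → ℚ),
        (∀ j ≤ T, Mdl N δK κ (lam j) (α j) (k j)) →
        (∀ j < T, (∀ P : Place ℂ K, Divisorial N P → k (j + 1) P ≤ k j P) ∧
          ∃ P : Place ℂ K, Divisorial N P ∧ k (j + 1) P < k j P) →
        T < Fintype.card (Finset (Finset (Fin n))) := by
  obtain ⟨h1, h2⟩ := term2 hp hgen hq hlin κ
  have hup : ∀ {lam : Fin p → ℚ} {α k : Place ℂ K → ℚ}, Mdl N δK κ lam α k →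
      Mdl N δ2 κ lam (pb K α) (pb K k) := fun h =>
    mdl_up hpK (fun P Q e h => pb_eq _ P Q e h) (fun P Q e h => pb_eq _ P Q e h) h
  constructor
  · intro lam α k hk
    obtain ⟨j, j', hlt, heq⟩ := h1 lam (fun j => pb K (α j)) (fun j => pb K (k j))
      fun j => hup (hk j)
    refine ⟨j, j', hlt, fun P hP => ?_⟩
    obtain ⟨W, e, hW⟩ := exists_above (K := M) P
    have h3 := heq W (div_up hW hP)
    beta_reduce at h3
    rw [pb_eq _ P W e hW, pb_eq _ P W e hW] at h3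
    have he : (e : ℚ) ≠ 0 := by
      have := hW.1
      positivity
    exact mul_left_cancel₀ he h3
  · intro T lam α k hk hst
    refine h2 T lam (fun j => pb K (α j)) (fun j => pb K (k j)) (fun j hj => hup (hk j hj))
      fun j hj => ⟨fun W hW => ?_, ?_⟩
    · obtain ⟨e, P, hP⟩ := exists_below (L := K) W
      rw [pb_eq _ P W e hP, pb_eq _ P W e hP]
      exact mul_le_mul_of_nonneg_left ((hst j hj).1 P (div_down hP hW)) (Nat.cast_nonneg _)
    · obtain ⟨P, hP, hlt⟩ := (hst j hj).2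
      obtain ⟨W, e, hW⟩ := exists_above (K := M) P
      refine ⟨W, div_up hW hP, ?_⟩
      rw [pb_eq _ P W e hW, pb_eq _ P W e hW]
      have he : (0 : ℚ) < e := by exact_mod_cast hW.1
      exact mul_lt_mul_of_pos_left hlt he

end corr

end Pool.Agent.P8H56.FL
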