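import Mathlib

/-!
Linear programming for the germs of the segments `lam + t κ` (from Pool.Agent.Q57.HK.Dir, restated
here without its imports).
-/

set_option autoImplicit false
set_option linter.overlappingInstances false
set_option linter.unusedSectionVars false
set_option maxHeartbeats 1000000

namespace Pool.Agent.P8H56.FL

section lp

variable {p N0 : ℕ} {g : Fin N0 → Fin p → ℤ}

/-- `e` represents `μ` -/
def Rp (g : Fin N0 → Fin p → ℤ) (e : Fin N0 → ℚ) (μ : Fin p → ℚ) : Prop :=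
  (∀ b, 0 ≤ e b) ∧ ∀ i, ∑ b, e b * g b i = μ i

/-- `v` is the minimum of `∑ b, e b * o b` over the representations `e` of `μ` -/
def Opt (g : Fin N0 → Fin p → ℤ) (o : Fin N0 → ℚ) (μ : Fin p → ℚ) (v : ℚ) : Prop :=
  (∀ e, Rp g e μ → v ≤ ∑ b, e b * o b) ∧ ∃ e, Rp g e μ ∧ ∑ b, e b * o b = v

theorem rp_add {e e' : Fin N0 → ℚ} {μ μ' : Fin p → ℚ} (h : Rp g e μ) (h' : Rp g e' μ') :
    Rp g (fun b => e b + e' b) (fun i => μ i + μ' i) := by
  refine ⟨fun b => add_nonneg (h.1 b) (h'.1 b), fun i => ?_⟩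
  beta_reduce
  rw [← h.2 i, ← h'.2 i, ← Finset.sum_add_distrib]
  exact Finset.sum_congr rfl fun b _ => by ring

theorem rp_smul {e : Fin N0 → ℚ} {μ : Fin p → ℚ} (h : Rp g e μ) {s : ℚ} (hs : 0 ≤ s) :
    Rp g (fun b => s * e b) (fun i => s * μ i) := by
  refine ⟨fun b => mul_nonneg hs (h.1 b), fun i => ?_⟩
  beta_reduce
  rw [← h.2 i, Finset.mul_sum]
  exact Finset.sum_congr rfl fun b _ => by ring

/-- a combination which is supported where an optimal one is positive is optimal -/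
theorem opt_of_supp {o : Fin N0 → ℚ} {μ μ' : Fin p → ℚ} {v : ℚ} (h : Opt g o μ v)
    {e e' : Fin N0 → ℚ} (he : Rp g e μ) (hv : ∑ b, e b * o b = v) (he' : Rp g e' μ')
    (hsup : ∀ b, e b = 0 → e' b = 0) {e'' : Fin N0 → ℚ} (he'' : Rp g e'' μ') :
    ∑ b, e' b * o b ≤ ∑ b, e'' b * o b := by
  classical
  -- a small positive number
  obtain ⟨s, hs, hs1⟩ : ∃ s : ℚ, 0 < s ∧ ∀ b, s * e' b ≤ e b := by
    have key : ∀ T : Finset (Fin N0), ∃ s : ℚ, 0 < s ∧ ∀ b ∈ T, s * e' b ≤ e b := by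
      intro T
      induction T using Finset.induction_on with
      | empty => exact ⟨1, one_pos, fun b hb => by simp at hb⟩
      | insert b T hb ih =>
        obtain ⟨s, hs, h1⟩ := ih
        by_cases h0 : e b = 0
        · refine ⟨s, hs, fun b' hb' => ?_⟩
          rcases Finset.mem_insert.1 hb' with rfl | hb'
          · rw [hsup _ h0, h0, mul_zero]
          · exact h1 b' hb'
        · have h2 : 0 < e b := lt_of_le_of_ne (he.1 b) (Ne.symm h0)
          have h3 : 0 < e' b + 1 := by linarith [he'.1 b]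
          refine ⟨min s (e b / (e' b + 1)), lt_min hs (div_pos h2 h3), fun b' hb' => ?_⟩
          rcases Finset.mem_insert.1 hb' with rfl | hb'
          · calc min s (e b' / (e' b' + 1)) * e' b' ≤ e b' / (e' b' + 1) * e' b' :=
                mul_le_mul_of_nonneg_right (min_le_right _ _) (he'.1 b')
              _ ≤ e b' / (e' b' + 1) * (e' b' + 1) := by
                refine mul_le_mul_of_nonneg_left (by linarith) (div_pos h2 h3).le
              _ = e b' := by field_simp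
          · exact (mul_le_mul_of_nonneg_right (min_le_left _ _) (he'.1 b')).trans (h1 b' hb')
    obtain ⟨s, hs, h1⟩ := key Finset.univ
    exact ⟨s, hs, fun b => h1 b (Finset.mem_univ b)⟩
  have h1 : Rp g (fun b => e b - s * e' b + s * e'' b) μ := by
    refine ⟨fun b => ?_, fun i => ?_⟩
    · have h2 := hs1 b
      have h3 := mul_nonneg hs.le (he''.1 b)
      linarith
    · have h2 : ∑ b, (e b - s * e' b + s * e'' b) * (g b i : ℚ) =
          ∑ b, e b * (g b i : ℚ) - s * ∑ b, e' b * (g b i : ℚ) + s * ∑ b, e'' b * (g b i : ℚ) := by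
        rw [Finset.mul_sum, Finset.mul_sum, ← Finset.sum_sub_distrib, ← Finset.sum_add_distrib]
        exact Finset.sum_congr rfl fun b _ => by ring
      rw [h2, he.2, he'.2, he''.2]
      ring
  have h2 := h.1 _ h1
  have h3 : ∑ b, (e b - s * e' b + s * e'' b) * o b =
      ∑ b, e b * o b - s * ∑ b, e' b * o b + s * ∑ b, e'' b * o b := by
    rw [Finset.mul_sum, Finset.mul_sum, ← Finset.sum_sub_distrib, ← Finset.sum_add_distrib]
    exact Finset.sum_congr rfl fun b _ => by ring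
  rw [h3, hv] at h2
  have h4 : s * ∑ b, e' b * o b ≤ s * ∑ b, e'' b * o b := by linarith
  exact le_of_mul_le_mul_left h4 hs

/-- `μ` is in the cone of the generators in `B` -/
def CoG (g : Fin N0 → Fin p → ℤ) (B : Finset (Fin N0)) (μ : Fin p → ℚ) : Prop :=
  ∃ e : Fin N0 → ℚ, (∀ b, 0 ≤ e b) ∧ (∀ b, b ∉ B → e b = 0) ∧ ∀ i, ∑ b, e b * g b i = μ i

open Classical in
/-- the cones which contain points of the segment arbitrarily near its end -/
noncomputable def gsig (g : Fin N0 → Fin p → ℤ) (κ lam : Fin p → ℚ) : Finset (Finset (Fin N0)) :=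
  Finset.univ.filter fun B => ∀ t0 : ℚ, 0 < t0 → ∃ t : ℚ, 0 < t ∧ t ≤ t0 ∧
    CoG g B fun i => lam i + t * κ i

/-- **The slopes are determined by the germs.** -/
theorem slope_eq {o : Fin N0 → ℚ} {κ lam lam' : Fin p → ℚ} {ε ε' a k a' k' : ℚ} (hε : 0 < ε)
    (hε' : 0 < ε')
    (h : ∀ t : ℚ, 0 ≤ t → t ≤ ε → Opt g o (fun i => lam i + t * κ i) (-(a + t * k)))
    (h' : ∀ t : ℚ, 0 ≤ t → t ≤ ε' → Opt g o (fun i => lam' i + t * κ i) (-(a' + t * k')))
    (hs : gsig g κ lam = gsig g κ lam') : k = k' := by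
  classical
  -- the supports of the optimal representations
  have h1 : ∀ t : ℚ, ∃ B : Finset (Fin N0), 0 ≤ t → t ≤ ε → ∃ e,
      Rp g e (fun i => lam i + t * κ i) ∧ ∑ b, e b * o b = -(a + t * k) ∧
        B = Finset.univ.filter fun b => e b ≠ 0 := by
    intro t
    by_cases ht : 0 ≤ t ∧ t ≤ ε
    · obtain ⟨e, he, hv⟩ := (h t ht.1 ht.2).2
      exact ⟨_, fun _ _ => ⟨e, he, hv, rfl⟩⟩
    · exact ⟨∅, fun h1 h2 => absurd ⟨h1, h2⟩ ht⟩
  choose Bf hBf using h1
  -- one of them occurs infinitely often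
  obtain ⟨B, hB⟩ : ∃ B : Finset (Fin N0), ∀ t0 : ℚ, 0 < t0 → ∃ t : ℚ, 0 < t ∧ t ≤ t0 ∧ t ≤ ε ∧
      Bf t = B := by
    by_contra hcon
    push Not at hcon
    choose t0 ht0 h2 using hcon
    obtain ⟨s, hs0, hs1⟩ : ∃ s : ℚ, 0 < s ∧ ∀ B, s ≤ t0 B := by
      obtain ⟨B0, -, hB0⟩ := Finset.exists_min_image (Finset.univ : Finset (Finset (Fin N0))) t0
        ⟨∅, Finset.mem_univ _⟩
      exact ⟨t0 B0, ht0 B0, fun B => hB0 B (Finset.mem_univ B)⟩
    exact h2 (Bf (min s ε)) (min s ε) (lt_min hs0 hε) ((min_le_left _ _).trans (hs1 _))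
      (min_le_right _ _) rfl
  have hBg : B ∈ gsig g κ lam := by
    unfold gsig
    rw [Finset.mem_filter]
    refine ⟨Finset.mem_univ B, fun t0 ht0 => ?_⟩
    obtain ⟨t, ht, ht1, ht2, htB⟩ := hB t0 ht0
    obtain ⟨e, he, -, hBe⟩ := hBf t ht.le ht2
    refine ⟨t, ht, ht1, e, he.1, fun b hb => ?_, he.2⟩
    by_contra h0
    apply hb
    rw [← htB, hBe]
    exact Finset.mem_filter.2 ⟨Finset.mem_univ b, h0⟩
  have hBg' : B ∈ gsig g κ lam' := by
    rw [← hs]
    exact hBg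
  unfold gsig at hBg'
  have hBg2 := (Finset.mem_filter.1 hBg').2
  -- two points on each of the segments
  obtain ⟨t2, ht2, -, ht2ε, htB2⟩ := hB ε hε
  obtain ⟨t1, ht1, ht12, ht1ε, htB1⟩ := hB (t2 / 2) (by linarith)
  obtain ⟨s2, hs2, hs2ε, e2', he2'0, he2'1, he2'2⟩ := hBg2 ε' hε'
  obtain ⟨s1, hs1, hs12, e1', he1'0, he1'1, he1'2⟩ := hBg2 (s2 / 2) (by linarith)
  obtain ⟨e2, he2, hv2, hB2⟩ := hBf t2 ht2.le ht2ε
  obtain ⟨e1, he1, hv1, hB1⟩ := hBf t1 ht1.le ht1ε
  have hmem : ∀ (e : Fin N0 → ℚ) (b : Fin N0), b ∈ Finset.univ.filter (fun b => e b ≠ 0) ↔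
      e b ≠ 0 := fun e b => by simp
  have hz1 : ∀ b, e1 b = 0 → b ∉ B := fun b hb hbB => by
    rw [← htB1, hB1, hmem] at hbB
    exact hbB hb
  have hz2 : ∀ b, b ∉ B → e2 b = 0 := fun b hbB => by
    by_contra h0
    apply hbB
    rw [← htB2, hB2, hmem]
    exact h0
  have hz1' : ∀ b, b ∉ B → e1 b = 0 := fun b hbB => by
    by_contra h0
    apply hbB
    rw [← htB1, hB1, hmem]
    exact h0
  -- the optimal values on the second segment
  have hr1 : Rp g e1' (fun i => lam' i + s1 * κ i) := ⟨he1'0, he1'2⟩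
  have hr2 : Rp g e2' (fun i => lam' i + s2 * κ i) := ⟨he2'0, he2'2⟩
  have hopt := h t1 ht1.le ht1ε
  have hval : ∀ {e' : Fin N0 → ℚ} {s : ℚ}, 0 ≤ s → s ≤ ε' →
      Rp g e' (fun i => lam' i + s * κ i) → (∀ b, b ∉ B → e' b = 0) →
      ∑ b, e' b * o b = -(a' + s * k') := by
    intro e' s h0 h1 he' hb
    obtain ⟨h2, e'', he'', hv''⟩ := h' s h0 h1
    refine le_antisymm ?_ (h2 e' he')
    rw [← hv'']
    exact opt_of_supp hopt he1 hv1 he' (fun b hb' => hb b (hz1 b hb')) he''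
  have hw1 := hval hs1.le (by linarith) hr1 he1'1
  have hw2 := hval hs2.le hs2ε hr2 he2'1
  -- two representations of the same point
  obtain ⟨T, hT⟩ : ∃ T, T = t2 - t1 := ⟨_, rfl⟩
  obtain ⟨S, hS⟩ : ∃ S, S = s2 - s1 := ⟨_, rfl⟩
  have hT0 : 0 < T := by rw [hT]; linarith
  have hS0 : 0 < S := by rw [hS]; linarith
  have hx := rp_add (rp_smul he2 hS0.le) (rp_smul hr1 hT0.le)
  have hy := rp_add (rp_smul he1 hS0.le) (rp_smul hr2 hT0.le)
  have hxy : (fun i => S * (lam i + t2 * κ i) + T * (lam' i + s1 * κ i)) =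
      fun i => S * (lam i + t1 * κ i) + T * (lam' i + s2 * κ i) := by
    funext i
    rw [hT, hS]
    ring
  rw [hxy] at hx
  have hle1 := opt_of_supp hopt he1 hv1 hx (fun b hb => by
    have h1 := hz1 b hb
    simp only [hz2 b h1, he1'1 b h1, mul_zero, add_zero]) hy
  have hle2 := opt_of_supp hopt he1 hv1 hy (fun b hb => by
    have h1 := hz1 b hb
    simp only [hz1' b h1, he2'1 b h1, mul_zero, add_zero]) hx
  have hsum : ∀ u v : Fin N0 → ℚ, ∑ b, (S * u b + T * v b) * o b =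
      S * ∑ b, u b * o b + T * ∑ b, v b * o b := by
    intro u v
    rw [Finset.mul_sum, Finset.mul_sum, ← Finset.sum_add_distrib]
    exact Finset.sum_congr rfl fun b _ => by ring
  have heq := le_antisymm hle1 hle2
  rw [hsum, hsum, hv2, hw1, hv1, hw2] at heq
  have h5 : S * T * (k - k') = 0 := by
    have : S * (t2 - t1) * k - T * (s2 - s1) * k' = 0 := by linarith
    rw [← hT, ← hS] at this
    linarith
  have h6 : k - k' = 0 := by
    rcases mul_eq_zero.1 h5 with h7 | h7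
    · exact absurd h7 (mul_pos hS0 hT0).ne'
    · exact h7
  linarith

end lp

/-- the common denominator -/
theorem exists_den {N0 : ℕ} (e : Fin N0 → ℚ) (he : ∀ b, 0 ≤ e b) :
    ∃ M : ℕ, 1 ≤ M ∧ ∃ e' : Fin N0 → ℕ, ∀ b, (M : ℚ) * e b = e' b := by
  classical
  refine ⟨∏ b, (e b).den, Nat.one_le_iff_ne_zero.2 (Finset.prod_ne_zero_iff.2 fun b _ =>
    (e b).den_ne_zero), fun b => (∏ b' ∈ Finset.univ.erase b, (e b').den) * (e b).num.toNat,
    fun b => ?_⟩
  have h1 : ((e b).num.toNat : ℚ) = (e b).num := by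
    have h2 : ((e b).num.toNat : ℤ) = (e b).num := Int.toNat_of_nonneg (Rat.num_nonneg.2 (he b))
    exact_mod_cast h2
  have h2 : (∏ b, (e b).den : ℕ) = (e b).den * ∏ b' ∈ Finset.univ.erase b, (e b').den :=
    (Finset.mul_prod_erase _ _ (Finset.mem_univ b)).symm
  rw [h2]
  push_cast
  rw [h1]
  have h3 : ((e b).den : ℚ) * e b = (e b).num := by
    rw [mul_comm]
    exact Rat.mul_den_eq_num (e b)
  calc ((e b).den : ℚ) * (∏ b' ∈ Finset.univ.erase b, ((e b').den : ℚ)) * e b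
      = (∏ b' ∈ Finset.univ.erase b, ((e b').den : ℚ)) * (((e b).den : ℚ) * e b) := by ring
    _ = _ := by rw [h3]


end Pool.Agent.P8H56.FL
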