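import Pool.Agent.P8H56.FL.Lp
import Pool.Agent.Y172.Cov2

/-!
Sections of pulled back divisors on a finite cover: their orders are bounded below by the orders of
sections on the base.
-/

set_option autoImplicit false
set_option linter.overlappingInstances false
set_option linter.unusedSectionVars false
set_option maxHeartbeats 1000000

open FF Pool.Agent.W602.GT Polynomial

namespace Pool.Agent.P8H56.FL

section ge

variable {k K : Type} [Field k] [Field K] [Algebra k K]

/-- `f` has order at least `r`, or `f = 0` -/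
def GeQ (W : Place k K) (r : ℚ) (f : K) : Prop := f = 0 ∨ r ≤ W.ord f

theorem GeQ.mono {W : Place k K} {r r' : ℚ} {f : K} (h : GeQ W r f) (hr : r' ≤ r) : GeQ W r' f := by
  rcases h with h | h
  · exact Or.inl h
  · exact Or.inr (hr.trans h)

theorem GeQ.add {W : Place k K} {r : ℚ} {f g : K} (hf : GeQ W r f) (hg : GeQ W r g) :
    GeQ W r (f + g) := by
  by_cases h0 : f + g = 0
  · exact Or.inl h0
  rcases hf with hf | hf
  · rw [hf, zero_add]
    exact hg
  rcases hg with hg | hg
  · rw [hg, add_zero]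
    exact Or.inr hf
  by_cases hf0 : f = 0
  · rw [hf0, zero_add]
    exact Or.inr hg
  by_cases hg0 : g = 0
  · rw [hg0, add_zero]
    exact Or.inr hf
  right
  have h1 := W.ord_add hf0 hg0 h0
  have h2 : ((min (W.ord f) (W.ord g) : ℤ) : ℚ) ≤ W.ord (f + g) := by exact_mod_cast h1
  refine le_trans ?_ h2
  push_cast
  exact le_min hf hg

theorem GeQ.neg {W : Place k K} {r : ℚ} {f : K} (hf : GeQ W r f) : GeQ W r (-f) := by
  rcases hf with hf | hf
  · left
    rw [hf, neg_zero]
  · right
    rw [W.ord_neg]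
    exact hf

theorem GeQ.mul {W : Place k K} {r r' : ℚ} {f g : K} (hf : GeQ W r f) (hg : GeQ W r' g) :
    GeQ W (r + r') (f * g) := by
  by_cases hf0 : f = 0
  · left
    rw [hf0, zero_mul]
  by_cases hg0 : g = 0
  · left
    rw [hg0, mul_zero]
  right
  rw [W.ord_mul hf0 hg0]
  push_cast
  exact add_le_add (hf.resolve_left hf0) (hg.resolve_left hg0)

/-- a term of small order -/
theorem exists_le_sum {ι : Type} (W : Place k K) (s : Finset ι) (f : ι → K)
    (h : ∑ i ∈ s, f i ≠ 0) : ∃ i ∈ s, f i ≠ 0 ∧ W.ord (f i) ≤ W.ord (∑ i ∈ s, f i) := by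
  classical
  induction s using Finset.induction_on with
  | empty => exact absurd (Finset.sum_empty) h
  | insert a s ha ih =>
    rw [Finset.sum_insert ha] at h ⊢
    by_cases hs : ∑ i ∈ s, f i = 0
    · rw [hs, add_zero] at h ⊢
      exact ⟨a, Finset.mem_insert_self a s, h, le_rfl⟩
    by_cases hfa : f a = 0
    · rw [hfa, zero_add]
      obtain ⟨i, hi, h1, h2⟩ := ih hs
      exact ⟨i, Finset.mem_insert_of_mem hi, h1, h2⟩
    have h1 := W.ord_add hfa hs h
    rcases min_le_iff.1 h1 with h2 | h2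
    · exact ⟨a, Finset.mem_insert_self a s, hfa, h2⟩
    · obtain ⟨i, hi, h3, h4⟩ := ih hs
      exact ⟨i, Finset.mem_insert_of_mem hi, h3, h4.trans h2⟩

/-- the orders of the coefficients of a product of linear factors -/
theorem coeff_prod {ι : Type} (W : Place k K) {r : ℚ} (a : ι → K) (s : Finset ι)
    (h : ∀ i ∈ s, GeQ W r (a i)) (j : ℕ) :
    GeQ W (((s.card : ℚ) - j) * r) ((∏ i ∈ s, (X - C (a i))).coeff j) := by
  classical
  induction s using Finset.induction_on generalizing j with
  | empty =>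
    rw [Finset.prod_empty, coeff_one]
    split_ifs with hj
    · right
      rw [hj, W.ord_one]
      simp
    · exact Or.inl rfl
  | insert b s hb ih =>
    have ih' := ih fun i hi => h i (Finset.mem_insert_of_mem hi)
    have hbs := h b (Finset.mem_insert_self b s)
    have h1 : ((X - C (a b)) * ∏ i ∈ s, (X - C (a i))).coeff j =
        (X * ∏ i ∈ s, (X - C (a i))).coeff j + -(a b * (∏ i ∈ s, (X - C (a i))).coeff j) := by
      rw [sub_mul, coeff_sub, coeff_C_mul, sub_eq_add_neg]
    rw [Finset.prod_insert hb, Finset.card_insert_of_notMem hb, h1]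
    push_cast
    have h2 : GeQ W ((((s.card : ℚ) + 1) - j) * r)
        (a b * (∏ i ∈ s, (X - C (a i))).coeff j) :=
      (hbs.mul (ih' j)).mono (le_of_eq (by ring))
    refine GeQ.add ?_ h2.neg
    cases j with
    | zero =>
      rw [coeff_X_mul_zero]
      exact Or.inl rfl
    | succ j =>
      rw [coeff_X_mul]
      refine (ih' j).mono (le_of_eq ?_)
      push_cast
      ring

end ge

section sec

variable {p : ℕ}

/-- sections of `∑ i, μ i * D i` -/
def Sec {F : Type} [Field F] [Algebra ℂ F] (N : ℕ) (δ : Fin p → Place ℂ F → ℚ) (μ : Fin p → ℤ)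
    (f : F) : Prop :=
  ∀ P : Place ℂ F, Divisorial N P → f = 0 ∨ - ∑ i, (μ i : ℚ) * δ i P ≤ P.ord f

variable {N : ℕ} {L K : Type} [Field L] [Algebra ℂ L] [Field K] [Algebra ℂ K]
  [Algebra L K] [IsScalarTower ℂ L K] [FiniteDimensional L K]

omit [FiniteDimensional L K] in
/-- automorphisms over `L` preserve the places over a place of `L` -/
theorem over_comp {W : Place ℂ K} {P : Place ℂ L} {e : ℕ} (h : Over W P e) (s : K ≃ₐ[L] K) :
    Over (W.comp (s.restrictScalars ℂ)) P e := by
  refine ⟨h.1, fun f => ?_⟩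
  rw [Place.comp_ord]
  change W.ord (s (algebraMap L K f)) = _
  rw [s.commutes]
  exact h.2 f

theorem exists_below (W : Place ℂ K) : ∃ (e : ℕ) (P : Place ℂ L), Over W P e := by
  have : Algebra.IsAlgebraic L K := Algebra.IsAlgebraic.of_finite L K
  exact Pool.Agent.W73.PG.PULL.exists_over' (K := L) W

theorem exists_above (v : Place ℂ L) : ∃ (P : Place ℂ K) (e : ℕ), Over P v e := by
  obtain ⟨S, T, h1, h2, h3⟩ := exists_places_over (K' := K) v
  have h4 : 0 < ∑ w ∈ S, T w := by
    rw [h3]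
    exact Module.finrank_pos
  obtain ⟨w, hw⟩ : S.Nonempty := by
    by_contra h
    rw [Finset.not_nonempty_iff_eq_empty] at h
    rw [h, Finset.sum_empty] at h4
    exact lt_irrefl _ h4
  obtain ⟨e, h, -⟩ := h2 w hw
  exact ⟨w, e, h⟩

/-- **The symmetric functions of a section.** -/
theorem exists_low [IsGalois L K] {δ : Fin p → Place ℂ L → ℚ} {μ : Fin p → ℤ} {η : K}
    (hη0 : η ≠ 0)
    (hsec : ∀ (W : Place ℂ K) (P : Place ℂ L) (e : ℕ), Over W P e → Divisorial N P →
      - ((e : ℚ) * ∑ i, (μ i : ℚ) * δ i P) ≤ W.ord η)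
    {W : Place ℂ K} {P : Place ℂ L} {e : ℕ} (h : Over W P e) :
    ∃ (k : ℕ) (c : L), 1 ≤ k ∧ c ≠ 0 ∧ Sec N δ (fun i => k * μ i) c ∧
      (e : ℤ) * P.ord c ≤ k * W.ord η := by
  classical
  obtain ⟨Q, hQ⟩ : ∃ Q : K[X], Q = ∏ s : K ≃ₐ[L] K, (X - C (s η)) := ⟨_, rfl⟩
  obtain ⟨d, hd⟩ : ∃ d : ℕ, d = Fintype.card (K ≃ₐ[L] K) := ⟨_, rfl⟩
  have hdeg : Q.natDegree = d := by
    rw [hQ, natDegree_prod_of_monic _ _ fun s _ => monic_X_sub_C _, hd]
    simp
  have hmon : Q.Monic := by
    rw [hQ]
    exact monic_prod_of_monic _ _ fun s _ => monic_X_sub_C _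
  have hroot : Q.eval η = 0 := by
    rw [hQ, eval_prod]
    refine Finset.prod_eq_zero (Finset.mem_univ (1 : K ≃ₐ[L] K)) ?_
    simp
  -- the coefficients are in `L`
  have hfix : ∀ j, ∃ c : L, algebraMap L K c = Q.coeff j := by
    intro j
    have h1 : Q.coeff j ∈ Set.range (algebraMap L K) := by
      rw [IsGalois.mem_range_algebraMap_iff_fixed]
      intro t
      have h2 : Q.map (t : K →+* K) = Q := by
        rw [hQ, Polynomial.map_prod]
        refine Fintype.prod_equiv (Equiv.mulLeft t) _ _ fun s => ?_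
        rw [Polynomial.map_sub, map_X, map_C]
        rfl
      have h3 := congrArg (fun R => coeff R j) h2
      simp only [coeff_map] at h3
      exact h3
    exact h1
  choose c hc using hfix
  -- the relation
  have hsum : η ^ d = - ∑ j ∈ Finset.range d, Q.coeff j * η ^ j := by
    have h1 := Polynomial.eval_eq_sum_range (p := Q) η
    rw [hroot, hdeg, Finset.sum_range_succ] at h1
    have h2 : Q.coeff d = 1 := by
      rw [← hdeg]
      exact hmon
    rw [h2, one_mul] at h1
    exact (neg_eq_of_add_eq_zero_right h1.symm).symm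
  have hne : ∑ j ∈ Finset.range d, Q.coeff j * η ^ j ≠ 0 := by
    intro h0
    rw [h0, neg_zero] at hsum
    exact pow_ne_zero d hη0 hsum
  obtain ⟨j, hj, hj0, hjle⟩ := exists_le_sum W _ _ hne
  have hjd : j < d := Finset.mem_range.1 hj
  have hq0 : Q.coeff j ≠ 0 := left_ne_zero_of_mul hj0
  have hc0 : c j ≠ 0 := by
    intro h0
    apply hq0
    rw [← hc, h0, map_zero]
  refine ⟨d - j, c j, by omega, hc0, ?_, ?_⟩
  · -- a section
    intro P' hP'
    right
    obtain ⟨W', e', h'⟩ := exists_above (K := K) P'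
    have h1 := coeff_prod W' (r := - ((e' : ℚ) * ∑ i, (μ i : ℚ) * δ i P'))
      (fun s : K ≃ₐ[L] K => s η) Finset.univ (fun s _ => Or.inr (by
        have h2 := hsec _ P' e' (over_comp h' s) hP'
        rw [Place.comp_ord] at h2
        exact h2)) j
    rw [← hQ] at h1
    have h2 := h1.resolve_left hq0
    rw [Finset.card_univ, ← hd, ← hc j, h'.2] at h2
    have he : (0 : ℚ) < e' := by exact_mod_cast h'.1
    push_cast [Nat.cast_sub hjd.le] at h2 ⊢
    have h3 : ∑ i, ((d : ℚ) - j) * μ i * δ i P' = ((d : ℚ) - j) * ∑ i, (μ i : ℚ) * δ i P' := by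
      rw [Finset.mul_sum]
      exact Finset.sum_congr rfl fun i _ => by ring
    rw [h3]
    have h4 : (e' : ℚ) * (-(((d : ℚ) - j) * ∑ i, (μ i : ℚ) * δ i P')) ≤ e' * P'.ord (c j) := by
      linarith
    exact le_of_mul_le_mul_left h4 he
  · -- of small order
    have h1 : W.ord (∑ j ∈ Finset.range d, Q.coeff j * η ^ j) = d * W.ord η := by
      rw [← W.ord_neg, ← hsum, W.ord_pow]
    rw [h1, W.ord_mul hq0 (pow_ne_zero j hη0), W.ord_pow, ← hc j, h.2] at hjle
    push_cast [Nat.cast_sub hjd.le]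
    linarith

end sec

end Pool.Agent.P8H56.FL
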