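import Pool.Agent.P8H56.FL.AmpC

/-!
Termination: rings of sections for the combinations in a convex cone.
-/

set_option autoImplicit false
set_option linter.overlappingInstances false
set_option linter.unusedSectionVars false
set_option maxHeartbeats 1000000

open FF Pool.Agent.W602.GT

namespace Pool.Agent.P8H56.FL

variable {p N n : ℕ} {C : PointedCone ℚ (Fin p → ℚ)}

/-- the combinations `lam + t κ` are in the cone for small `t` -/
def InC (C : PointedCone ℚ (Fin p → ℚ)) (κ lam : Fin p → ℚ) : Prop :=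
  ∃ ε : ℚ, 0 < ε ∧ ∀ t : ℚ, 0 ≤ t → t ≤ ε → (fun i => lam i + t * κ i) ∈ C

theorem mdl_at {K : Type} [Field K] [Algebra ℂ K] {δ : Fin p → Place ℂ K → ℚ}
    {κ lam : Fin p → ℚ} {α k : Place ℂ K → ℚ} (h : Mdl N δ κ lam α k) :
    ∃ ε : ℚ, 0 < ε ∧ ∀ t : ℚ, 0 ≤ t → t ≤ ε →
      Mdl N δ 0 (fun i => lam i + t * κ i) (fun P => α P + t * k P) 0 := by
  obtain ⟨ε, hε, h⟩ := h
  refine ⟨ε, hε, fun t ht0 ht1 => ⟨1, one_pos, fun t' _ _ => ?_⟩⟩
  have h1 := h t ht0 ht1
  have h2 : ∀ i, (lam i + t * κ i) + t' * (0 : Fin p → ℚ) i = lam i + t * κ i := fun i => by simp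
  have h3 : ∀ P, (α P + t * k P) + t' * (0 : Place ℂ K → ℚ) P = α P + t * k P := fun P => by simp
  simp only [h2, h3]
  exact h1

variable {L K M : Type} [Field L] [Algebra ℂ L] [Field K] [Algebra ℂ K] [Field M] [Algebra ℂ M]
  [Algebra L M] [IsScalarTower ℂ L M] [FiniteDimensional L M]
  [Algebra K M] [IsScalarTower ℂ K M] [FiniteDimensional K M]

theorem slopeC {δ : Fin p → Place ℂ L → ℚ} {δK : Fin p → Place ℂ K → ℚ}
    {δ' δ2 : Fin p → Place ℂ M → ℚ} (hp : Pull N δ δ') (hpK : Pull N δK δ2) {q : ℕ} (hq : 1 ≤ q)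
    {h : Fin p → M} (hlin : Lin N q h δ' δ2) {g : Fin n → Fin p → ℤ} {f : Fin n → L}
    (hgen : GenC C N δ g f) {κ lam lam' : Fin p → ℚ} (hl : InC C κ lam) (hl' : InC C κ lam')
    {α k α' k' : Place ℂ K → ℚ}
    (hm : Mdl N δK κ lam α k) (hm' : Mdl N δK κ lam' α' k') (hs : gsig g κ lam = gsig g κ lam')
    (P : Place ℂ K) (hP : Divisorial N P) : k P = k' P := by
  classical
  have hup : ∀ {lam : Fin p → ℚ} {α k : Place ℂ K → ℚ}, InC C κ lam → Mdl N δK κ lam α k →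
      ∃ ε : ℚ, 0 < ε ∧ ∀ W : Place ℂ M, Divisorial N W → ∀ t : ℚ, 0 ≤ t → t ≤ ε →
        Opt g (fun b => (W.ord (algebraMap L M (f b)) : ℚ)) (fun i => lam i + t * κ i)
          (-((pb K α W + ∑ i, lam i * ((W.ord (h i)⁻¹ : ℚ) / q)) +
            t * (pb K k W + ∑ i, κ i * ((W.ord (h i)⁻¹ : ℚ) / q)))) := by
    intro lam α k hl hα
    have h1 : Mdl N δ2 κ lam (pb K α) (pb K k) := mdl_up hpK (fun P Q e h => pb_eq _ P Q e h)
      (fun P Q e h => pb_eq _ P Q e h) hα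
    obtain ⟨ε1, hε1, h2⟩ := mdl_at (mdl_twist hq (Lin.symm hlin) h1)
    obtain ⟨ε2, hε2, h3⟩ := hl
    refine ⟨min ε1 ε2, lt_min hε1 hε2, fun W hW t ht0 ht1 => ?_⟩
    exact optC hp hgen (h3 t ht0 (ht1.trans (min_le_right _ _)))
      (h2 t ht0 (ht1.trans (min_le_left _ _))) hW
  obtain ⟨W, e, hW⟩ := exists_above (K := M) P
  obtain ⟨ε, hε, h1⟩ := hup hl hm
  obtain ⟨ε', hε', h1'⟩ := hup hl' hm'
  have h2 := slope_eq hε hε' (h1 W (div_up hW hP)) (h1' W (div_up hW hP)) hs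
  rw [pb_eq _ P W e hW, pb_eq _ P W e hW] at h2
  have he : (e : ℚ) ≠ 0 := by
    have := hW.1
    positivity
  have h3 : (e : ℚ) * k P = e * k' P := by linarith
  exact mul_left_cancel₀ he h3

/-- **Termination.** -/
theorem termC {δ : Fin p → Place ℂ L → ℚ} {δK : Fin p → Place ℂ K → ℚ}
    {δ' δ2 : Fin p → Place ℂ M → ℚ} (hp : Pull N δ δ') (hpK : Pull N δK δ2) {q : ℕ} (hq : 1 ≤ q)
    {h : Fin p → M} (hlin : Lin N q h δ' δ2) {g : Fin n → Fin p → ℤ} {f : Fin n → L}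
    (hgen : GenC C N δ g f) (κ : Fin p → ℚ) :
      (∀ (lam : Fin (Fintype.card (Finset (Finset (Fin n))) + 1) → Fin p → ℚ)
        (α k : Fin (Fintype.card (Finset (Finset (Fin n))) + 1) → Place ℂ K → ℚ),
        (∀ j, InC C κ (lam j) ∧ Mdl N δK κ (lam j) (α j) (k j)) →
        ∃ j j' : Fin (Fintype.card (Finset (Finset (Fin n))) + 1), j < j' ∧
          ∀ P : Place ℂ K, Divisorial N P → k j P = k j' P) ∧
      ∀ (T : ℕ) (lam : ℕ → Fin p → ℚ) (α k : ℕ → Place ℂ K → ℚ),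
        (∀ j ≤ T, InC C κ (lam j) ∧ Mdl N δK κ (lam j) (α j) (k j)) →
        (∀ j < T, (∀ P : Place ℂ K, Divisorial N P → k (j + 1) P ≤ k j P) ∧
          ∃ P : Place ℂ K, Divisorial N P ∧ k (j + 1) P < k j P) →
        T < Fintype.card (Finset (Finset (Fin n))) := by
  classical
  have hfin : ∀ (lam : Fin (Fintype.card (Finset (Finset (Fin n))) + 1) → Fin p → ℚ)
      (α k : Fin (Fintype.card (Finset (Finset (Fin n))) + 1) → Place ℂ K → ℚ),
      (∀ j, InC C κ (lam j) ∧ Mdl N δK κ (lam j) (α j) (k j)) →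
      ∃ j j' : Fin (Fintype.card (Finset (Finset (Fin n))) + 1), j < j' ∧
        ∀ P : Place ℂ K, Divisorial N P → k j P = k j' P := by
    intro lam α k hk
    have key : ∀ j j', gsig g κ (lam j) = gsig g κ (lam j') →
        ∀ P : Place ℂ K, Divisorial N P → k j P = k j' P := fun j j' hjj P hP =>
      slopeC hp hpK hq hlin hgen (hk j).1 (hk j').1 (hk j).2 (hk j').2 hjj P hP
    obtain ⟨j, j', hne, heq⟩ := Fintype.exists_ne_map_eq_of_card_lt (fun j => gsig g κ (lam j)) (by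
      rw [Fintype.card_fin]
      exact Nat.lt_succ_self _)
    rcases lt_or_gt_of_ne hne with hlt | hlt
    · exact ⟨j, j', hlt, key j j' heq⟩
    · exact ⟨j', j, hlt, key j' j heq.symm⟩
  refine ⟨hfin, fun T lam α k hk hst => ?_⟩
  by_contra hcon
  push Not at hcon
  obtain ⟨j, j', hlt, heq⟩ := hfin (fun j => lam j) (fun j => α j) (fun j => k j) fun j => hk j (by
    have := j.2
    omega)
  have hlt' : (j : ℕ) < j' := hlt
  have hj' : (j' : ℕ) ≤ T := by
    have := j'.2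
    omega
  have hmono : ∀ a b : ℕ, a ≤ b → b ≤ T → ∀ P : Place ℂ K, Divisorial N P → k b P ≤ k a P := by
    intro a b hab
    induction b, hab using Nat.le_induction with
    | base => intro _ P _; exact le_rfl
    | succ b hab ih =>
      intro hb P hP
      exact ((hst b (by omega)).1 P hP).trans (ih (by omega) P hP)
  obtain ⟨P, hP, hs⟩ := (hst j (by omega)).2
  have h1 := hmono (j + 1) j' (by omega) hj' P hP
  have h2 := heq P hP
  linarith

end Pool.Agent.P8H56.FL
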