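import Pool.Agent.P8H56.FL.Inv

/-!
Sequences of models and finite correspondences.
-/

set_option autoImplicit false
set_option linter.overlappingInstances false
set_option linter.unusedSectionVars false
set_option maxHeartbeats 1000000

open FF Pool.Agent.W602.GT

namespace Pool.Agent.P8H56.FL

variable {p N : ℕ}

/-- a sequence of models, with better discrepancies in every step -/
def Sq {F : Type} [Field F] [Algebra ℂ F] (N : ℕ) (δ : Fin p → Place ℂ F → ℚ) (κ : Fin p → ℚ)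
    (T : ℕ∞) (lam : ℕ → Fin p → ℚ) (α k : ℕ → Place ℂ F → ℚ) : Prop :=
  (∀ j : ℕ, (j : ℕ∞) ≤ T → Mdl N δ κ (lam j) (α j) (k j)) ∧
    ∀ j : ℕ, (j : ℕ∞) < T → (∀ P : Place ℂ F, Divisorial N P → k (j + 1) P ≤ k j P) ∧
      ∃ P : Place ℂ F, Divisorial N P ∧ k (j + 1) P < k j P

variable {L K M : Type} [Field L] [Algebra ℂ L] [Field K] [Algebra ℂ K] [Field M] [Algebra ℂ M]
  [Algebra L M] [IsScalarTower ℂ L M] [FiniteDimensional L M]
  [Algebra K M] [IsScalarTower ℂ K M] [FiniteDimensional K M]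

/-- **The transfer of sequences of models.** -/
theorem transfer {δ : Fin p → Place ℂ L → ℚ} {δK : Fin p → Place ℂ K → ℚ}
    {δ' δ2 : Fin p → Place ℂ M → ℚ} (hp : Pull N δ δ') (hpK : Pull N δK δ2) {q : ℕ} (hq : 1 ≤ q)
    {h : Fin p → M} (hlin : Lin N q h δ' δ2) {κ : Fin p → ℚ} {T : ℕ∞} {lam : ℕ → Fin p → ℚ}
    {α k : ℕ → Place ℂ L → ℚ} (hs : Sq N δ κ T lam α k) :
    ∃ α' k' : ℕ → Place ℂ K → ℚ, Sq N δK κ T lam α' k' ∧
      ∀ j : ℕ, (j : ℕ∞) ≤ T → ∀ (W : Place ℂ M) (P : Place ℂ L) (P' : Place ℂ K) (e e' : ℕ),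
        Divisorial N W → Over W P e → Over W P' e' →
        e' * α' j P' = e * α j P + ∑ i, lam j i * ((W.ord (h i) : ℚ) / q) ∧
        e' * k' j P' = e * k j P + ∑ i, κ i * ((W.ord (h i) : ℚ) / q) := by
  obtain ⟨hs1, hs2⟩ := hs
  obtain ⟨A, hA⟩ : ∃ A : ℕ → Place ℂ M → ℚ, A = fun j W =>
    pb L (α j) W + ∑ i, lam j i * ((W.ord (h i) : ℚ) / q) := ⟨_, rfl⟩
  obtain ⟨B, hB⟩ : ∃ B : ℕ → Place ℂ M → ℚ, B = fun j W =>
    pb L (k j) W + ∑ i, κ i * ((W.ord (h i) : ℚ) / q) := ⟨_, rfl⟩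
  have hup : ∀ j : ℕ, (j : ℕ∞) ≤ T → Mdl N δ2 κ (lam j) (A j) (B j) := by
    intro j hj
    rw [hA, hB]
    exact mdl_twist hq hlin (mdl_up hp (fun P Q e h => pb_eq _ P Q e h)
      (fun P Q e h => pb_eq _ P Q e h) (hs1 j hj))
  have hrel : ∀ j : ℕ, (j : ℕ∞) ≤ T → ∀ (W : Place ℂ M) (P : Place ℂ L) (P' : Place ℂ K)
      (e e' : ℕ), Divisorial N W → Over W P e → Over W P' e' →
        e' * dn K (A j) P' = e * α j P + ∑ i, lam j i * ((W.ord (h i) : ℚ) / q) ∧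
        e' * dn K (B j) P' = e * k j P + ∑ i, κ i * ((W.ord (h i) : ℚ) / q) := by
    intro j hj W P P' e e' hW hP hP'
    obtain ⟨h1, h2⟩ := (mdl_down hpK (hup j hj)).2 P' W e' (div_down hP' hW) hP'
    rw [← h1, ← h2, hA, hB]
    beta_reduce
    rw [pb_eq _ P W e hP, pb_eq _ P W e hP]
    exact ⟨rfl, rfl⟩
  refine ⟨fun j => dn K (A j), fun j => dn K (B j),
    ⟨fun j hj => (mdl_down hpK (hup j hj)).1, fun j hj => ?_⟩, hrel⟩
  have hj0 : (j : ℕ∞) ≤ T := hj.le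
  have hj1 : ((j + 1 : ℕ) : ℕ∞) ≤ T := by
    push_cast
    exact Order.add_one_le_of_lt hj
  constructor
  · intro P' hP'
    obtain ⟨W, e', hW⟩ := exists_above (K := M) P'
    obtain ⟨e, P, hP⟩ := exists_below (L := L) W
    have hdW := div_up hW hP'
    have hdP := div_down hP hdW
    have h0 := (hrel j hj0 W P P' e e' hdW hP hW).2
    have h1 := (hrel (j + 1) hj1 W P P' e e' hdW hP hW).2
    have he' : (0 : ℚ) < e' := by exact_mod_cast hW.1
    have h2 := mul_le_mul_of_nonneg_left ((hs2 j hj).1 P hdP) (Nat.cast_nonneg (α := ℚ) e)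
    have h3 : (e' : ℚ) * dn K (B (j + 1)) P' ≤ e' * dn K (B j) P' := by linarith
    exact le_of_mul_le_mul_left h3 he'
  · obtain ⟨P, hP, hlt⟩ := (hs2 j hj).2
    obtain ⟨W, e, hW⟩ := exists_above (K := M) P
    obtain ⟨e', P', hP'⟩ := exists_below (L := K) W
    have hdW := div_up hW hP
    refine ⟨P', div_down hP' hdW, ?_⟩
    have h0 := (hrel j hj0 W P P' e e' hdW hW hP').2
    have h1 := (hrel (j + 1) hj1 W P P' e e' hdW hW hP').2
    have he : (0 : ℚ) < e := by exact_mod_cast hW.1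
    have he' : (0 : ℚ) < e' := by exact_mod_cast hP'.1
    have h2 := mul_lt_mul_of_pos_left hlt he
    have h3 : (e' : ℚ) * dn K (B (j + 1)) P' < e' * dn K (B j) P' := by linarith
    exact lt_of_mul_lt_mul_left h3 he'.le

/-- the transfer in the other direction -/
theorem transfer' {δ : Fin p → Place ℂ L → ℚ} {δK : Fin p → Place ℂ K → ℚ}
    {δ' δ2 : Fin p → Place ℂ M → ℚ} (hp : Pull N δ δ') (hpK : Pull N δK δ2) {q : ℕ} (hq : 1 ≤ q)
    {h : Fin p → M} (hlin : Lin N q h δ' δ2) {κ : Fin p → ℚ} {T : ℕ∞} {lam : ℕ → Fin p → ℚ}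
    {α' k' : ℕ → Place ℂ K → ℚ} (hs : Sq N δK κ T lam α' k') :
    ∃ α k : ℕ → Place ℂ L → ℚ, Sq N δ κ T lam α k ∧
      ∀ j : ℕ, (j : ℕ∞) ≤ T → ∀ (W : Place ℂ M) (P : Place ℂ L) (P' : Place ℂ K) (e e' : ℕ),
        Divisorial N W → Over W P e → Over W P' e' →
        e' * α' j P' = e * α j P + ∑ i, lam j i * ((W.ord (h i) : ℚ) / q) ∧
        e' * k' j P' = e * k j P + ∑ i, κ i * ((W.ord (h i) : ℚ) / q) := by
  obtain ⟨α, k, h1, h2⟩ := transfer hpK hp hq (Lin.symm hlin) hs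
  refine ⟨α, k, h1, fun j hj W P P' e e' hW hP hP' => ?_⟩
  obtain ⟨h3, h4⟩ := h2 j hj W P' P e' e hW hP' hP
  have h5 : ∀ c : Fin p → ℚ, ∑ i, c i * ((W.ord (h i)⁻¹ : ℚ) / q) =
      - ∑ i, c i * ((W.ord (h i) : ℚ) / q) := by
    intro c
    rw [← Finset.sum_neg_distrib]
    refine Finset.sum_congr rfl fun i _ => ?_
    rw [W.ord_inv]
    push_cast
    ring
  rw [h5] at h3 h4
  constructor <;> linarith

end Pool.Agent.P8H56.FL
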